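import Pool.Agent.Lib.PolyTime.Eq

/-!
# Division in polynomial time, and a bound for polynomials
-/

namespace Pool.Agent.Lib.MP_b4f117_lc

open Pool.Agent.PolyTime

theorem div_eq_length (a b : ℕ) (hb : 0 < b) :
    ((List.range a).filter (fun i => decide ((i + 1) * b ≤ a))).length = a / b := by
  have h1 : (List.range a).filter (fun i => decide ((i + 1) * b ≤ a))
      = (List.range a).filter (fun i => decide (i < a / b)) := by
    apply List.filter_congr
    intro i _
    rw [decide_eq_decide, Nat.le_div_iff_mul_le hb |>.symm]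
    exact Nat.succ_le_iff
  have h2 : ∀ m c, c ≤ m → ((List.range m).filter (fun i => decide (i < c))).length = c := by
    intro m
    induction m with
    | zero => intro c hc; simp; omega
    | succ m ih =>
      intro c hc
      rw [List.range_succ, List.filter_append, List.length_append]
      rcases Nat.lt_or_ge m c with h | h
      · have e : c = m + 1 := by omega
        subst e
        have : (List.range m).filter (fun i => decide (i < m + 1)) = List.range m := by
          rw [List.filter_eq_self]
          intro i hi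
          have := List.mem_range.1 hi
          simp; omega
        rw [this]
        simp
      · rw [ih c h]
        simp; omega
  rw [h1, h2 _ _ (Nat.div_le_self a b)]

variable {α : Type} [SCode α]

theorem ptime_div {f g : α → ℕ} (hf : PTime f) (hg : PTime g) (hpos : ∀ a, 0 < g a) :
    PTime (fun a => f a / g a) := by
  have h : PTime (fun a => ((List.range (f a)).filter
      (fun i => decide ((i + 1) * g a ≤ f a))).length) := by
    refine PTime.length (PTime.filter (p := fun a i => decide ((i + 1) * g a ≤ f a))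
      (PTime.range hf) ?_)
    exact PTime.nat_le (PTime.mul (PTime.succ PTime.snd) (hg.comp PTime.fst))
      (hf.comp PTime.fst)
  exact h.of_eq fun a => div_eq_length _ _ (hpos a)

theorem ptime_mod {f g : α → ℕ} (hf : PTime f) (hg : PTime g) (hpos : ∀ a, 0 < g a) :
    PTime (fun a => f a % g a) := by
  have h := PTime.sub hf (PTime.mul hg (ptime_div hf hg hpos))
  exact h.of_eq fun a => by
    have := Nat.div_add_mod (f a) (g a)
    omega

/-- a polynomial is bounded by `C * (n + 1) ^ c` -/
theorem poly_bound (P : Polynomial ℕ) : ∃ C c : ℕ, ∀ n, P.eval n ≤ C * (n + 1) ^ c := by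
  induction P using Polynomial.induction_on' with
  | add p q hp hq =>
    obtain ⟨C₁, c₁, h₁⟩ := hp
    obtain ⟨C₂, c₂, h₂⟩ := hq
    refine ⟨C₁ + C₂, c₁ + c₂, fun n => ?_⟩
    rw [Polynomial.eval_add]
    have e₁ : (n + 1) ^ c₁ ≤ (n + 1) ^ (c₁ + c₂) := Nat.pow_le_pow_right (by omega) (by omega)
    have e₂ : (n + 1) ^ c₂ ≤ (n + 1) ^ (c₁ + c₂) := Nat.pow_le_pow_right (by omega) (by omega)
    calc Polynomial.eval n p + Polynomial.eval n q
        ≤ C₁ * (n + 1) ^ c₁ + C₂ * (n + 1) ^ c₂ := Nat.add_le_add (h₁ n) (h₂ n)
      _ ≤ C₁ * (n + 1) ^ (c₁ + c₂) + C₂ * (n + 1) ^ (c₁ + c₂) :=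
        Nat.add_le_add (Nat.mul_le_mul_left _ e₁) (Nat.mul_le_mul_left _ e₂)
      _ = (C₁ + C₂) * (n + 1) ^ (c₁ + c₂) := by ring
  | monomial k a =>
    refine ⟨a, k, fun n => ?_⟩
    rw [Polynomial.eval_monomial]
    exact Nat.mul_le_mul_left _ (Nat.pow_le_pow_left (by omega) _)

end Pool.Agent.Lib.MP_b4f117_lc
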