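import Pool.Agent.Lib.MP_b4f117_lc.Red

/-!
# Chains of chunk values and sets of variables
-/

namespace Pool.Agent.Lib.MP_b4f117_lc

open Pool.Agent.PolyTime

/-- a sequence of admissible chunk values that fit together -/
structure Chain (m r k : ℕ) (V : ℕ → Val) : Prop where
  ok : ∀ j, j ≤ k / r → vok m r k j (V j) = true
  fit : ∀ j, j < k / r → (V j).2.2 = (V (j + 1)).1

/-- the positions chosen by the first `n` chunks -/
def posList (V : ℕ → Val) (n : ℕ) : List ℕ := (List.range n).flatMap (fun j => (V j).2.1)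

theorem posList_succ (V : ℕ → Val) (n : ℕ) : posList V (n + 1) = posList V n ++ (V n).2.1 := by
  simp [posList, List.range_succ, List.flatMap_append]

variable {m r k : ℕ} {V : ℕ → Val}

theorem Chain.chk (h : Chain m r k V) {j : ℕ} (hj : j ≤ k / r) :
    chk (V j).1 (V j).2.1 (V j).2.2 = true := by
  have := h.ok j hj
  simp only [vok, Bool.and_eq_true] at this
  exact this.1

theorem Chain.len (h : Chain m r k V) {j : ℕ} (hj : j ≤ k / r) :
    (V j).2.1.length = if j = k / r then k % r else r := by
  have := h.ok j hj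
  simp only [vok, Bool.and_eq_true, decide_eq_true_eq] at this
  exact this.2.2.1

theorem Chain.lo_zero (h : Chain m r k V) : (V 0).1 = 0 := by
  have := h.ok 0 (Nat.zero_le _)
  simp only [vok, Bool.and_eq_true, Bool.or_eq_true, Bool.not_eq_true', decide_eq_true_eq,
    decide_eq_false_iff_not] at this
  rcases this.2.2.2.1 with h | h
  · exact absurd trivial h
  · exact h

theorem Chain.hi_last (h : Chain m r k V) : (V (k / r)).2.2 = m := by
  have := h.ok (k / r) le_rfl
  simp only [vok, Bool.and_eq_true, Bool.or_eq_true, Bool.not_eq_true', decide_eq_true_eq,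
    decide_eq_false_iff_not] at this
  rcases this.2.2.2.2 with h | h
  · exact absurd trivial h
  · exact h

theorem Chain.lo_le_hi (h : Chain m r k V) {j : ℕ} (hj : j ≤ k / r) : (V j).1 ≤ (V j).2.2 :=
  chk_le (h.chk hj)

theorem Chain.chk_posList (h : Chain m r k V) {j : ℕ} (hj : j ≤ k / r) :
    Pool.Agent.Lib.MP_b4f117_lc.chk 0 (posList V (j + 1)) (V j).2.2 = true := by
  induction j with
  | zero =>
    have := h.chk hj
    rw [h.lo_zero] at this
    simpa [posList] using this
  | succ j ih =>
    rw [posList_succ]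
    refine chk_append (ih (by omega)) ?_
    rw [h.fit j (by omega)]
    exact h.chk hj

theorem Chain.length_posList (h : Chain m r k V) {j : ℕ} (hj : j ≤ k / r) :
    (posList V j).length = j * r := by
  induction j with
  | zero => simp [posList]
  | succ j ih =>
    rw [posList_succ, List.length_append, ih (by omega), h.len (by omega), if_neg (by omega)]
    ring

theorem Chain.length_all (h : Chain m r k V) : (posList V (k / r + 1)).length = k := by
  rw [posList_succ, List.length_append, h.length_posList le_rfl, h.len le_rfl, if_pos rfl]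
  exact Nat.div_add_mod' k r

theorem Chain.hi_le_lo (h : Chain m r k V) {i j : ℕ} (hij : i < j) (hj : j ≤ k / r) :
    (V i).2.2 ≤ (V j).1 := by
  induction j with
  | zero => omega
  | succ j ih =>
    rcases Nat.lt_or_ge i j with h1 | h1
    · have h2 := ih h1 (by omega)
      have h3 := h.lo_le_hi (j := j) (by omega)
      have h4 := h.fit j (by omega)
      omega
    · have : i = j := by omega
      subst this
      exact (h.fit i (by omega)).le

theorem Chain.exists_chunk (h : Chain m r k V) {p : ℕ} (hp : p < m) :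
    ∃ j ≤ k / r, (V j).1 ≤ p ∧ p < (V j).2.2 := by
  have key : ∀ j ≤ k / r, p < (V j).2.2 → ∃ i ≤ j, (V i).1 ≤ p ∧ p < (V i).2.2 := by
    intro j
    induction j with
    | zero =>
      intro hj hp
      exact ⟨0, le_rfl, by rw [h.lo_zero]; exact Nat.zero_le _, hp⟩
    | succ j ih =>
      intro hj hp
      rcases Nat.lt_or_ge p (V (j + 1)).1 with h1 | h1
      · rw [← h.fit j (by omega)] at h1
        obtain ⟨i, hi, h2⟩ := ih (by omega) h1
        exact ⟨i, by omega, h2⟩
      · exact ⟨j + 1, le_rfl, h1, hp⟩
  obtain ⟨i, hi, h1⟩ := key (k / r) le_rfl (by rw [h.hi_last]; exact hp)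
  exact ⟨i, hi, h1⟩

theorem Chain.chunk_unique (h : Chain m r k V) {p i j : ℕ} (hi : i ≤ k / r) (hj : j ≤ k / r)
    (h1 : (V i).1 ≤ p ∧ p < (V i).2.2) (h2 : (V j).1 ≤ p ∧ p < (V j).2.2) : i = j := by
  rcases Nat.lt_trichotomy i j with h3 | h3 | h3
  · have := h.hi_le_lo h3 hj
    omega
  · exact h3
  · have := h.hi_le_lo h3 hi
    omega

theorem Chain.mem_posList_iff (h : Chain m r k V) {p j : ℕ} (hj : j ≤ k / r)
    (h1 : (V j).1 ≤ p ∧ p < (V j).2.2) : p ∈ posList V (k / r + 1) ↔ p ∈ (V j).2.1 := by
  simp only [posList, List.mem_flatMap, List.mem_range]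
  constructor
  · rintro ⟨i, hi, hp⟩
    have := h.chunk_unique (by omega) hj (chk_mem (h.chk (by omega : i ≤ k / r)) p hp) h1
    rw [← this]
    exact hp
  · intro hp
    exact ⟨j, by omega, hp⟩

theorem Chain.lt_of_mem (h : Chain m r k V) {p : ℕ} (hp : p ∈ posList V (k / r + 1)) : p < m := by
  have := chk_mem (h.chk_posList le_rfl) p hp
  rw [h.hi_last] at this
  exact this.2

/-- the variables chosen by a sequence of chunk values -/
def names (vs : List Var) (r k : ℕ) (V : ℕ → Val) : Finset Var :=
  ((posList V (k / r + 1)).map (fun p => vs.getD p [])).toFinset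

variable {vs : List Var}

theorem getD_eq {p : ℕ} (hp : p < vs.length) : vs.getD p [] = vs[p] := by
  simp [List.getD, hp]

theorem Chain.mem_names (h : Chain vs.length r k V) (hn : vs.Nodup) {p : ℕ} (hp : p < vs.length) :
    vs[p] ∈ names vs r k V ↔ p ∈ posList V (k / r + 1) := by
  simp only [names, List.mem_toFinset, List.mem_map]
  constructor
  · rintro ⟨q, hq, h1⟩
    have hq' := h.lt_of_mem hq
    rw [getD_eq hq'] at h1
    rwa [(List.Nodup.getElem_inj_iff hn).1 h1] at hq
  · intro h1
    exact ⟨p, h1, getD_eq hp⟩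

theorem Chain.names_sub (h : Chain vs.length r k V) {v : Var} (hv : v ∈ names vs r k V) :
    v ∈ vs := by
  simp only [names, List.mem_toFinset, List.mem_map] at hv
  obtain ⟨q, hq, rfl⟩ := hv
  rw [getD_eq (h.lt_of_mem hq)]
  exact List.getElem_mem _

theorem Chain.card_names (h : Chain vs.length r k V) (hn : vs.Nodup) :
    (names vs r k V).card = k := by
  rw [names, List.toFinset_card_of_nodup, List.length_map, h.length_all]
  refine List.Nodup.map_on ?_ (chk_nodup (h.chk_posList le_rfl))
  intro a ha b hb hab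
  rw [getD_eq (h.lt_of_mem ha), getD_eq (h.lt_of_mem hb)] at hab
  exact (List.Nodup.getElem_inj_iff hn).1 hab

theorem decides_iff {ℓ : Lit} {v : Val} :
    decides vs ℓ v = true ↔ ∃ p, ∃ hp : p < vs.length, vs[p] = ℓ.1 ∧ v.1 ≤ p ∧ p < v.2.2 ∧
      (p ∈ v.2.1 ↔ ℓ.2 = true) := by
  simp only [decides, List.any_eq_true, Bool.and_eq_true, decide_eq_true_eq, beq_iff_eq]
  constructor
  · rintro ⟨⟨x, p⟩, hx, h1, h2, h3, h4⟩
    rw [List.mem_zipIdx_iff_getElem?] at hx
    simp only at hx h1 h2 h3 h4
    obtain ⟨hp, hx⟩ := List.getElem?_eq_some_iff.1 hx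
    refine ⟨p, hp, hx.trans h1, h2, h3, ?_⟩
    rw [← h4]
    simp
  · rintro ⟨p, hp, h1, h2, h3, h4⟩
    refine ⟨(vs[p], p), ?_, h1, h2, h3, ?_⟩
    · rw [List.mem_zipIdx_iff_getElem?]
      simp [hp]
    · cases h5 : ℓ.2 <;> simp_all

theorem Chain.lit_iff (h : Chain vs.length r k V) (hn : vs.Nodup) {ℓ : Lit} (hℓ : ℓ.1 ∈ vs) :
    LitHolds ℓ (names vs r k V) ↔ ∃ j ≤ k / r, decides vs ℓ (V j) = true := by
  obtain ⟨p, hp, hpv⟩ := List.getElem_of_mem hℓ
  simp only [LitHolds]
  rw [← hpv, h.mem_names hn hp]
  constructor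
  · intro h1
    obtain ⟨j, hj, h2⟩ := h.exists_chunk hp
    refine ⟨j, hj, decides_iff.2 ⟨p, hp, hpv, h2.1, h2.2, ?_⟩⟩
    rw [← h.mem_posList_iff hj h2]
    exact h1
  · rintro ⟨j, hj, h1⟩
    obtain ⟨q, hq, h2, h3, h4, h5⟩ := decides_iff.1 h1
    rw [← hpv] at h2
    have := (List.Nodup.getElem_inj_iff hn).1 h2
    subst this
    rw [h.mem_posList_iff hj ⟨h3, h4⟩]
    exact h5

/-- every increasing list is cut into chunks -/
theorem exists_values (r q e : ℕ) : ∀ (C : List ℕ) (lo hi : ℕ), chk lo C hi = true →
    C.length = q * r + e → ∃ V : ℕ → Val,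
      (∀ j ≤ q, chk (V j).1 (V j).2.1 (V j).2.2 = true ∧ (V j).2.2 ≤ hi) ∧ (V 0).1 = lo ∧
      (V q).2.2 = hi ∧ (∀ j < q, (V j).2.1.length = r) ∧ (V q).2.1.length = e ∧
      (∀ j < q, (V j).2.2 = (V (j + 1)).1) ∧ posList V (q + 1) = C := by
  induction q with
  | zero =>
    intro C lo hi h hl
    refine ⟨fun _ => (lo, C, hi), fun _ _ => ⟨h, le_rfl⟩, rfl, rfl, by simp, by simpa using hl,
      by simp, by simp [posList]⟩
  | succ q ih =>
    intro C lo hi h hl
    have hC : C = C.take r ++ C.drop r := (List.take_append_drop r C).symm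
    have hr : r ≤ C.length := by
      rw [hl]; nlinarith
    rw [hC] at h
    obtain ⟨mid, h1, h2⟩ := chk_split h
    obtain ⟨V, a1, a2, a3, a4, a5, a6, a7⟩ := ih (C.drop r) mid hi h2 (by
      rw [List.length_drop, hl]
      have : (q + 1) * r = q * r + r := by ring
      omega)
    refine ⟨fun j => if j = 0 then (lo, C.take r, mid) else V (j - 1), ?_, rfl, ?_, ?_, ?_, ?_, ?_⟩
    · intro j hj
      by_cases hj0 : j = 0
      · simp only [hj0, if_true]
        exact ⟨h1, chk_le h2⟩
      · simp only [hj0, if_false]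
        exact a1 (j - 1) (by omega)
    · simp [a3]
    · intro j hj
      by_cases hj0 : j = 0
      · simp only [hj0, if_true, List.length_take]
        omega
      · simp only [hj0, if_false]
        exact a4 (j - 1) (by omega)
    · simp [a5]
    · intro j hj
      by_cases hj0 : j = 0
      · subst hj0
        simp [a2]
      · have e : j - 1 + 1 = j := by omega
        have := a6 (j - 1) (by omega)
        rw [e] at this
        simp only [hj0, if_false, Nat.add_sub_cancel, Nat.add_eq_zero_iff, one_ne_zero,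
          and_false]
        exact this
    · have key : ∀ n, posList (fun j => if j = 0 then (lo, C.take r, mid) else V (j - 1)) (n + 1)
          = C.take r ++ posList V n := by
        intro n
        induction n with
        | zero => simp [posList]
        | succ n ihn =>
          rw [posList_succ, ihn, posList_succ]
          simp
      rw [key, a7, List.take_append_drop]

theorem chk_filter_range (m : ℕ) (p : ℕ → Bool) : ∀ n lo, lo + n = m →
    chk lo ((List.range' lo n).filter p) m = true := by
  intro n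
  induction n with
  | zero => intro lo h; simp [chk]; omega
  | succ n ih =>
    intro lo h
    rw [List.range'_succ, List.filter_cons]
    have h1 := ih (lo + 1) (by omega)
    split_ifs
    · simp only [chk, Bool.and_eq_true, decide_eq_true_eq]
      exact ⟨le_rfl, h1⟩
    · cases hl : (List.range' (lo + 1) n).filter p with
      | nil => simp [chk]; omega
      | cons a l =>
        rw [hl] at h1
        simp only [chk, Bool.and_eq_true, decide_eq_true_eq] at h1 ⊢
        exact ⟨by omega, h1.2⟩

/-- every set of `k` variables comes from a chain -/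
theorem exists_chain (hn : vs.Nodup) (S : Finset Var) (hS : ∀ v ∈ S, v ∈ vs)
    (hk : S.card = k) : ∃ V, Chain vs.length r k V ∧ names vs r k V = S := by
  classical
  set C := (List.range' 0 vs.length).filter (fun p => decide (vs.getD p [] ∈ S)) with hC
  have hchk : chk 0 C vs.length = true := chk_filter_range _ _ _ 0 (by simp)
  have hmem : ∀ p, p ∈ C ↔ p < vs.length ∧ vs.getD p [] ∈ S := by
    intro p
    rw [hC, List.mem_filter, List.mem_range'_1]
    simp
  have hnd := chk_nodup hchk
  have himg : (C.map (fun p => vs.getD p [])).toFinset = S := by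
    ext v
    simp only [List.mem_toFinset, List.mem_map]
    constructor
    · rintro ⟨p, hp, rfl⟩
      exact ((hmem p).1 hp).2
    · intro hv
      obtain ⟨p, hp, hpv⟩ := List.getElem_of_mem (hS v hv)
      refine ⟨p, (hmem p).2 ⟨hp, ?_⟩, ?_⟩
      · rw [getD_eq hp, hpv]; exact hv
      · rw [getD_eq hp, hpv]
  have hlen : C.length = k := by
    rw [← hk, ← himg, List.toFinset_card_of_nodup, List.length_map]
    refine List.Nodup.map_on ?_ hnd
    intro a ha b hb hab
    rw [getD_eq ((hmem a).1 ha).1, getD_eq ((hmem b).1 hb).1] at hab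
    exact (List.Nodup.getElem_inj_iff hn).1 hab
  obtain ⟨V, a1, a2, a3, a4, a5, a6, a7⟩ := exists_values r (k / r) (k % r) C 0 vs.length hchk
    (by rw [hlen]; exact (Nat.div_add_mod' k r).symm)
  refine ⟨V, ⟨?_, a6⟩, ?_⟩
  · intro j hj
    simp only [vok, Bool.and_eq_true, decide_eq_true_eq, Bool.or_eq_true, Bool.not_eq_true',
      decide_eq_false_iff_not]
    refine ⟨(a1 j hj).1, (a1 j hj).2, ?_, ?_, ?_⟩
    · split_ifs with h
      · rw [h]; exact a5
      · exact a4 j (by omega)
    · by_cases h : j = 0
      · right; rw [h]; exact a2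
      · left; exact h
    · by_cases h : j = k / r
      · right; rw [h]; exact a3
      · left; exact h
  · rw [names, a7, himg]

end Pool.Agent.Lib.MP_b4f117_lc
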