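import Pool.Agent.Lib.MP_b4f117_lc.Chain

/-!
# Correctness of the reduction
-/

namespace Pool.Agent.Lib.MP_b4f117_lc

open Pool.Agent.PolyTime

variable {m r k d : ℕ} {V : ℕ → Val} {vs : List Var}

theorem exists_mem_map' {α β : Type} {f : α → β} {l : List α} {p : β → Prop} :
    (∃ b ∈ l.map f, p b) ↔ ∃ a ∈ l, p (f a) := by
  simp

/-- the cell for the tuple `J` of chunk indices -/
def cell (V : ℕ → Val) (J : List ℕ) : List Entry := J.map (fun j => (j, V j))

/-- the true variables of the new formula given by a chain -/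
def cells (d r k : ℕ) (V : ℕ → Val) : Finset Var :=
  ((tup d (List.range (k / r + 1))).map (fun J => nm (cell V J))).toFinset

theorem nm_mem_cells {c : List Entry} :
    nm c ∈ cells d r k V ↔ c.length = d ∧ ∀ e ∈ c, e.1 ≤ k / r ∧ e.2 = V e.1 := by
  simp only [cells, List.mem_toFinset, List.mem_map]
  constructor
  · rintro ⟨J, hJ, h⟩
    have h' := nm_inj h
    subst h'
    rw [mem_tup] at hJ
    refine ⟨by simp [cell, hJ.1], ?_⟩
    intro e he
    simp only [cell, List.mem_map] at he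
    obtain ⟨j, hj, rfl⟩ := he
    have := List.mem_range.1 (hJ.2 j hj)
    exact ⟨by simp; omega, rfl⟩
  · rintro ⟨h1, h2⟩
    refine ⟨c.map Prod.fst, ?_, ?_⟩
    · rw [mem_tup]
      refine ⟨by simpa using h1, ?_⟩
      intro j hj
      obtain ⟨e, he, rfl⟩ := List.mem_map.1 hj
      have := (h2 e he).1
      exact List.mem_range.2 (by omega)
    · congr 1
      simp only [cell, List.map_map]
      conv_rhs => rw [← List.map_id c]
      apply List.map_congr_left
      intro e he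
      simp only [Function.comp, id]
      rw [← (h2 e he).2]

theorem card_cells : (cells d r k V).card = (k / r + 1) ^ d := by
  rw [cells, List.toFinset_card_of_nodup, List.length_map, length_tup, List.length_range]
  refine List.Nodup.map_on ?_ (nodup_tup List.nodup_range)
  intro J _ J' _ h
  have h' := nm_inj h
  have := congrArg (List.map Prod.fst) h'
  simpa [cell, List.map_map, Function.comp_def] using this

theorem Chain.cell_mem (h : Chain m r k V) (hr : 0 < r) {J : List ℕ}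
    (hJ : J ∈ tup d (List.range (k / r + 1))) : cell V J ∈ tup d (pairs m r k) := by
  rw [mem_tup] at hJ ⊢
  refine ⟨by simp [cell, hJ.1], ?_⟩
  intro e he
  simp only [cell, List.mem_map] at he
  obtain ⟨j, hj, rfl⟩ := he
  have := List.mem_range.1 (hJ.2 j hj)
  rw [mem_pairs hr]
  exact ⟨this, h.ok j (by omega)⟩

theorem Chain.decAll_iff (h : Chain vs.length r k V) (hr : 0 < r) (hn : vs.Nodup)
    {γ : List Lit} (hγ : γ.length ≤ d) (hv : ∀ ℓ ∈ γ, ℓ.1 ∈ vs) :
    (∀ ℓ ∈ γ, LitHolds ℓ (names vs r k V)) ↔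
      ∃ c ∈ tup d (pairs vs.length r k), decAll vs γ c = true ∧ nm c ∈ cells d r k V := by
  constructor
  · intro h1
    have h2 : ∀ ℓ ∈ γ, ∃ j ≤ k / r, decides vs ℓ (V j) = true := fun ℓ hℓ =>
      (h.lit_iff hn (hv ℓ hℓ)).1 (h1 ℓ hℓ)
    choose! f hf1 hf2 using h2
    set J := γ.map f ++ List.replicate (d - γ.length) 0 with hJ
    have hJm : J ∈ tup d (List.range (k / r + 1)) := by
      rw [mem_tup]
      refine ⟨by simp [hJ]; omega, ?_⟩
      intro j hj
      rw [hJ, List.mem_append] at hj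
      rcases hj with hj | hj
      · obtain ⟨ℓ, hℓ, rfl⟩ := List.mem_map.1 hj
        have := hf1 ℓ hℓ
        exact List.mem_range.2 (by omega)
      · rw [(List.mem_replicate.1 hj).2]
        exact List.mem_range.2 (Nat.succ_pos _)
    refine ⟨cell V J, h.cell_mem hr hJm, ?_, ?_⟩
    · simp only [decAll, List.all_eq_true, List.any_eq_true]
      intro ℓ hℓ
      refine ⟨(f ℓ, V (f ℓ)), ?_, hf2 ℓ hℓ⟩
      simp only [cell, List.mem_map]
      exact ⟨f ℓ, by rw [hJ]; exact List.mem_append_left _ (List.mem_map.2 ⟨ℓ, hℓ, rfl⟩), rfl⟩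
    · simp only [cells, List.mem_toFinset, List.mem_map]
      exact ⟨J, hJm, rfl⟩
  · rintro ⟨c, hc, h1, h2⟩ ℓ hℓ
    rw [nm_mem_cells] at h2
    simp only [decAll, List.all_eq_true, List.any_eq_true] at h1
    obtain ⟨e, he, h3⟩ := h1 ℓ hℓ
    obtain ⟨h4, h5⟩ := h2.2 e he
    rw [h.lit_iff hn (hv ℓ hℓ)]
    exact ⟨e.1, h4, by rw [← h5]; exact h3⟩

theorem litHolds_neg (ℓ : Lit) (S : Finset Var) : LitHolds (ℓ.1, !ℓ.2) S ↔ ¬ LitHolds ℓ S := by
  obtain ⟨v, s⟩ := ℓ
  simp only [LitHolds]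
  cases s <;> simp

theorem holds_zero_true {S : Finset Var} {φ : Fm 0} :
    Holds S 0 true φ ↔ ∀ ℓ ∈ (show List Lit from φ), LitHolds ℓ S := Iff.rfl
theorem holds_zero_false {S : Finset Var} {φ : Fm 0} :
    Holds S 0 false φ ↔ ∃ ℓ ∈ (show List Lit from φ), LitHolds ℓ S := Iff.rfl
theorem holds_succ_true {S : Finset Var} {t : ℕ} {φ : Fm (t + 1)} :
    Holds S (t + 1) true φ ↔ ∀ ψ ∈ (show List (Fm t) from φ), Holds S t false ψ := Iff.rfl
theorem holds_succ_false {S : Finset Var} {t : ℕ} {φ : Fm (t + 1)} :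
    Holds S (t + 1) false φ ↔ ∃ ψ ∈ (show List (Fm t) from φ), Holds S t true ψ := Iff.rfl

theorem Chain.tr_holds (h : Chain vs.length r k V) (hr : 0 < r) (hn : vs.Nodup) :
    ∀ (s : ℕ) (b : Bool) (φ : Fm (s + 1)), Width d (s + 1) φ → (∀ v ∈ vars (s + 1) φ, v ∈ vs) →
      (Holds (cells d r k V) (s + 1) b (tr vs (tup d (pairs vs.length r k)) s b φ) ↔
        Holds (names vs r k V) (s + 1) b φ) := by
  intro s
  induction s with
  | zero =>
    intro b φ hw hv
    have hw' : ∀ δ ∈ (show List (List Lit) from φ), δ.length ≤ d := hw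
    have hv' : ∀ δ ∈ (show List (List Lit) from φ), ∀ ℓ ∈ δ, ℓ.1 ∈ vs := by
      intro δ hδ ℓ hℓ
      refine hv ℓ.1 ?_
      exact List.mem_flatMap.2 ⟨δ, hδ, List.mem_map.2 ⟨ℓ, hℓ, rfl⟩⟩
    cases b with
    | true =>
      rw [holds_succ_true, holds_succ_true]
      change (∀ ψ ∈ (show List (List Lit) from φ).flatMap (fun δ =>
        ((tup d (pairs vs.length r k)).filter (fun c => decAll vs (δ.map (fun ℓ => (ℓ.1, !ℓ.2))) c)).map
        (fun c => [(nm c, false)])), ∃ ℓ ∈ ψ, LitHolds ℓ (cells d r k V)) ↔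
        (∀ δ ∈ (show List (List Lit) from φ), ∃ ℓ ∈ δ, LitHolds ℓ (names vs r k V))
      have key : ∀ δ ∈ (show List (List Lit) from φ),
          ((∃ ℓ ∈ δ, LitHolds ℓ (names vs r k V)) ↔
          ∀ c ∈ tup d (pairs vs.length r k), decAll vs (δ.map (fun ℓ => (ℓ.1, !ℓ.2))) c = true →
            nm c ∉ cells d r k V) := by
        intro δ hδ
        have h1 := h.decAll_iff (d := d) hr hn (γ := δ.map (fun ℓ => (ℓ.1, !ℓ.2)))
          (by simpa using hw' δ hδ) (by
            intro ℓ hℓ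
            obtain ⟨ℓ', hℓ', rfl⟩ := List.mem_map.1 hℓ
            exact hv' δ hδ ℓ' hℓ')
        have h2 := not_congr h1
        push Not at h2
        rw [← h2]
        constructor
        · rintro ⟨ℓ, hℓ, h3⟩
          exact ⟨(ℓ.1, !ℓ.2), List.mem_map.2 ⟨ℓ, hℓ, rfl⟩, fun h4 => (litHolds_neg ℓ _).1 h4 h3⟩
        · rintro ⟨ℓ, hℓ, h3⟩
          obtain ⟨ℓ', hℓ', rfl⟩ := List.mem_map.1 hℓ
          refine ⟨ℓ', hℓ', ?_⟩
          by_contra h4
          exact h3 ((litHolds_neg ℓ' _).2 h4)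
      constructor
      · intro h1 δ hδ
        rw [key δ hδ]
        intro c hc hdec hmem
        obtain ⟨ℓ, hℓ, h3⟩ := h1 [(nm c, false)] (List.mem_flatMap.2 ⟨δ, hδ, List.mem_map.2
          ⟨c, List.mem_filter.2 ⟨hc, hdec⟩, rfl⟩⟩)
        rw [List.mem_singleton.1 hℓ] at h3
        simp only [LitHolds, Bool.false_eq_true, iff_false] at h3
        exact h3 hmem
      · intro h1 ψ hψ
        obtain ⟨δ, hδ, hψ⟩ := List.mem_flatMap.1 hψ
        obtain ⟨c, hc, rfl⟩ := List.mem_map.1 hψ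
        obtain ⟨hc, hdec⟩ := List.mem_filter.1 hc
        refine ⟨(nm c, false), List.mem_singleton.2 rfl, ?_⟩
        simp only [LitHolds, Bool.false_eq_true, iff_false]
        exact (key δ hδ).1 (h1 δ hδ) c hc hdec
    | false =>
      rw [holds_succ_false, holds_succ_false]
      change (∃ ψ ∈ (show List (List Lit) from φ).flatMap (fun γ =>
        ((tup d (pairs vs.length r k)).filter (fun c => decAll vs γ c)).map
        (fun c => [(nm c, true)])), ∀ ℓ ∈ ψ, LitHolds ℓ (cells d r k V)) ↔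
        (∃ γ ∈ (show List (List Lit) from φ), ∀ ℓ ∈ γ, LitHolds ℓ (names vs r k V))
      constructor
      · rintro ⟨ψ, hψ, h1⟩
        obtain ⟨γ, hγ, hψ⟩ := List.mem_flatMap.1 hψ
        obtain ⟨c, hc, rfl⟩ := List.mem_map.1 hψ
        obtain ⟨hc, hdec⟩ := List.mem_filter.1 hc
        refine ⟨γ, hγ, ?_⟩
        rw [h.decAll_iff (d := d) hr hn (hw' γ hγ) (hv' γ hγ)]
        refine ⟨c, hc, hdec, ?_⟩
        have := h1 (nm c, true) (List.mem_singleton.2 rfl)
        simpa [LitHolds] using this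
      · rintro ⟨γ, hγ, h1⟩
        rw [h.decAll_iff (d := d) hr hn (hw' γ hγ) (hv' γ hγ)] at h1
        obtain ⟨c, hc, hdec, hmem⟩ := h1
        refine ⟨[(nm c, true)], List.mem_flatMap.2 ⟨γ, hγ, List.mem_map.2
          ⟨c, List.mem_filter.2 ⟨hc, hdec⟩, rfl⟩⟩, ?_⟩
        intro ℓ hℓ
        rw [List.mem_singleton.1 hℓ]
        simpa [LitHolds] using hmem
  | succ s ih =>
    intro b φ hw hv
    have hw' : ∀ ψ ∈ (show List (Fm (s + 1)) from φ), Width d (s + 1) ψ := hw
    have hv' : ∀ ψ ∈ (show List (Fm (s + 1)) from φ), ∀ v ∈ vars (s + 1) ψ, v ∈ vs := by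
      intro ψ hψ v hvψ
      exact hv v (List.mem_flatMap.2 ⟨ψ, hψ, hvψ⟩)
    cases b with
    | true =>
      rw [holds_succ_true, holds_succ_true]
      change (∀ ψ ∈ (show List (Fm (s + 1)) from φ).map
        (tr vs (tup d (pairs vs.length r k)) s false), Holds _ (s + 1) false ψ) ↔ _
      rw [List.forall_mem_map]
      exact forall₂_congr fun ψ hψ => ih false ψ (hw' ψ hψ) (hv' ψ hψ)
    | false =>
      rw [holds_succ_false, holds_succ_false]
      change (∃ ψ ∈ (show List (Fm (s + 1)) from φ).map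
        (tr vs (tup d (pairs vs.length r k)) s true), Holds _ (s + 1) true ψ) ↔ _
      rw [exists_mem_map']
      constructor
      · rintro ⟨ψ, hψ, h1⟩
        exact ⟨ψ, hψ, (ih true ψ (hw' ψ hψ) (hv' ψ hψ)).1 h1⟩
      · rintro ⟨ψ, hψ, h1⟩
        exact ⟨ψ, hψ, (ih true ψ (hw' ψ hψ) (hv' ψ hψ)).2 h1⟩

/-! ### The constraints -/

theorem holds_single (Z : Finset Var) (t : ℕ) (b : Bool) (ℓ : Lit) :
    Holds Z t b (single t ℓ) ↔ LitHolds ℓ Z := by
  induction t generalizing b with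
  | zero =>
    cases b
    · rw [holds_zero_false]; simp [single]
    · rw [holds_zero_true]; simp [single]
  | succ t ih =>
    cases b
    · rw [holds_succ_false]
      change (∃ ψ ∈ [single t ℓ], Holds Z t true ψ) ↔ _
      simp [ih]
    · rw [holds_succ_true]
      change (∀ ψ ∈ [single t ℓ], Holds Z t false ψ) ↔ _
      simp [ih]

theorem holds_emb (Z : Finset Var) (t : ℕ) (cl : List Lit) :
    Holds Z (t + 1) false (emb t cl) ↔ ∃ ℓ ∈ cl, LitHolds ℓ Z := by
  rw [holds_succ_false]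
  change (∃ ψ ∈ cl.map (single t), Holds Z t true ψ) ↔ _
  rw [exists_mem_map']
  simp [holds_single]

/-- the meaning of the constraints -/
structure Good (d L : ℕ) (A : List (List Entry)) (Z : Finset Var) : Prop where
  exist : ∀ J ∈ tup d (List.range L), ∃ c ∈ A, c.map Prod.fst = J ∧ nm c ∈ Z
  fit : ∀ c ∈ A, ∀ c' ∈ A, clash c c' = true → ¬ (nm c ∈ Z ∧ nm c' ∈ Z)

theorem cls_iff {L : ℕ} {A : List (List Entry)} {Z : Finset Var} :
    (∀ cl ∈ cls d L A, ∃ ℓ ∈ cl, LitHolds ℓ Z) ↔ Good d L A Z := by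
  constructor
  · intro h
    refine ⟨?_, ?_⟩
    · intro J hJ
      obtain ⟨ℓ, hℓ, h1⟩ := h _ (List.mem_append_left _ (List.mem_map.2 ⟨J, hJ, rfl⟩))
      obtain ⟨c, hc, rfl⟩ := List.mem_map.1 hℓ
      obtain ⟨hc, hcJ⟩ := List.mem_filter.1 hc
      exact ⟨c, hc, by simpa using hcJ, by simpa [LitHolds] using h1⟩
    · intro c hc c' hc' hcl hmem
      obtain ⟨ℓ, hℓ, h1⟩ := h _ (List.mem_append_right _ (List.mem_flatMap.2 ⟨c, hc,
        List.mem_map.2 ⟨c', List.mem_filter.2 ⟨hc', hcl⟩, rfl⟩⟩))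
      simp only [List.mem_cons, List.not_mem_nil, or_false] at hℓ
      rcases hℓ with rfl | rfl
      · exact (by simpa [LitHolds] using h1 : nm c ∉ Z) hmem.1
      · exact (by simpa [LitHolds] using h1 : nm c' ∉ Z) hmem.2
  · rintro ⟨h1, h2⟩ cl hcl
    rcases List.mem_append.1 hcl with hcl | hcl
    · obtain ⟨J, hJ, rfl⟩ := List.mem_map.1 hcl
      obtain ⟨c, hc, h3, h4⟩ := h1 J hJ
      refine ⟨(nm c, true), List.mem_map.2 ⟨c, List.mem_filter.2 ⟨hc, by simpa using h3⟩, rfl⟩, ?_⟩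
      simpa [LitHolds] using h4
    · obtain ⟨c, hc, hcl⟩ := List.mem_flatMap.1 hcl
      obtain ⟨c', hc', rfl⟩ := List.mem_map.1 hcl
      obtain ⟨hc', hcl⟩ := List.mem_filter.1 hc'
      have h3 := h2 c hc c' hc' hcl
      by_cases h4 : nm c ∈ Z
      · have h5 : nm c' ∉ Z := fun h5 => h3 ⟨h4, h5⟩
        exact ⟨(nm c', false), by simp, by simpa [LitHolds] using h5⟩
      · exact ⟨(nm c, false), by simp, by simpa [LitHolds] using h4⟩

theorem clash_iff {c c' : List Entry} : clash c c' = true ↔ ∃ e ∈ c, ∃ e' ∈ c',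
    (e.1 = e'.1 ∧ e.2 ≠ e'.2) ∨ (e.1 + 1 = e'.1 ∧ e.2.2.2 ≠ e'.2.1) := by
  simp only [clash, List.any_eq_true, Bool.or_eq_true, Bool.and_eq_true, decide_eq_true_eq,
    Bool.not_eq_true', decide_eq_false_iff_not, ne_eq]

theorem Chain.good (h : Chain m r k V) (hr : 0 < r) :
    Good d (k / r + 1) (tup d (pairs m r k)) (cells d r k V) := by
  refine ⟨?_, ?_⟩
  · intro J hJ
    refine ⟨cell V J, h.cell_mem hr hJ, ?_, ?_⟩
    · simp [cell, List.map_map, Function.comp_def]
    · simp only [cells, List.mem_toFinset, List.mem_map]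
      exact ⟨J, hJ, rfl⟩
  · rintro c - c' - hcl ⟨h1, h2⟩
    rw [nm_mem_cells] at h1 h2
    obtain ⟨e, he, e', he', h3⟩ := clash_iff.1 hcl
    obtain ⟨a1, a2⟩ := h1.2 e he
    obtain ⟨b1, b2⟩ := h2.2 e' he'
    rcases h3 with ⟨h3, h4⟩ | ⟨h3, h4⟩
    · exact h4 (by rw [a2, b2, h3])
    · refine h4 ?_
      rw [a2, b2, ← h3]
      exact h.fit e.1 (by omega)

theorem Good.exists_chain (hd : 0 < d) (hr : 0 < r) {Z : Finset Var}
    (h : Good d (k / r + 1) (tup d (pairs m r k)) Z)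
    (hZ : ∀ z ∈ Z, ∃ c ∈ tup d (pairs m r k), nm c = z) (hcard : Z.card = (k / r + 1) ^ d) :
    ∃ V, Chain m r k V ∧ Z = cells d r k V := by
  have h1 : ∀ j, j ≤ k / r → ∃ c ∈ tup d (pairs m r k),
      c.map Prod.fst = List.replicate d j ∧ nm c ∈ Z := by
    intro j hj
    refine h.exist _ ?_
    rw [mem_tup]
    refine ⟨by simp, ?_⟩
    intro i hi
    rw [(List.mem_replicate.1 hi).2]
    exact List.mem_range.2 (by omega)
  choose! f hf1 hf2 hf3 using h1
  have hlen : ∀ j, j ≤ k / r → (f j).length = d := fun j hj => (mem_tup.1 (hf1 j hj)).1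
  set V : ℕ → Val := fun j => ((f j).headD (0, 0, [], 0)).2 with hV
  have hmem : ∀ j, j ≤ k / r → (j, V j) ∈ f j := by
    intro j hj
    have hl := hlen j hj
    have h2 := hf2 j hj
    cases hfj : f j with
    | nil => rw [hfj] at hl; simp at hl; omega
    | cons e l =>
      have h3 : e.1 = j := by
        rw [hfj] at h2
        obtain ⟨d', rfl⟩ : ∃ d', d = d' + 1 := ⟨d - 1, by omega⟩
        simp only [List.map_cons, List.replicate_succ, List.cons.injEq] at h2
        exact h2.1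
      have h4 : V j = e.2 := by simp [hV, hfj]
      rw [h4, ← h3]
      exact List.mem_cons_self
  have hent : ∀ c ∈ tup d (pairs m r k), nm c ∈ Z → ∀ e ∈ c, e.1 ≤ k / r ∧ e.2 = V e.1 := by
    intro c hc hcZ e he
    have h2 : e.1 ≤ k / r := by
      have := ((mem_pairs hr).1 ((mem_tup.1 hc).2 e he)).1
      omega
    refine ⟨h2, ?_⟩
    by_contra h3
    exact h.fit c hc (f e.1) (hf1 e.1 h2) (clash_iff.2 ⟨e, he, (e.1, V e.1), hmem e.1 h2,
      Or.inl ⟨rfl, h3⟩⟩) ⟨hcZ, hf3 e.1 h2⟩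
  refine ⟨V, ⟨?_, ?_⟩, ?_⟩
  · intro j hj
    exact ((mem_pairs hr).1 ((mem_tup.1 (hf1 j hj)).2 _ (hmem j hj))).2
  · intro j hj
    by_contra h3
    exact h.fit (f j) (hf1 j (by omega)) (f (j + 1)) (hf1 (j + 1) (by omega))
      (clash_iff.2 ⟨(j, V j), hmem j (by omega), (j + 1, V (j + 1)), hmem (j + 1) (by omega),
      Or.inr ⟨rfl, h3⟩⟩) ⟨hf3 j (by omega), hf3 (j + 1) (by omega)⟩
  · refine Finset.eq_of_subset_of_card_le ?_ (by rw [hcard, card_cells])
    intro z hz
    obtain ⟨c, hc, rfl⟩ := hZ z hz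
    rw [nm_mem_cells]
    exact ⟨(mem_tup.1 hc).1, hent c hc hz⟩

/-! ### Variables of the new formula -/

theorem vars_single (t : ℕ) (ℓ : Lit) : vars t (single t ℓ) = [ℓ.1] := by
  induction t with
  | zero => rfl
  | succ t ih =>
    change [single t ℓ].flatMap (vars t) = _
    simp [ih]

theorem vars_emb (t : ℕ) (cl : List Lit) : vars (t + 1) (emb t cl) = cl.map Prod.fst := by
  change (cl.map (single t)).flatMap (vars t) = _
  induction cl with
  | nil => rfl
  | cons a l ih => simp [vars_single, ih]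

theorem vars_tr (A : List (List Entry)) : ∀ (s : ℕ) (b : Bool) (φ : Fm (s + 1)) (v : Var),
    v ∈ vars (s + 1) (tr vs A s b φ) → ∃ c ∈ A, nm c = v := by
  intro s
  induction s with
  | zero =>
    intro b φ v hv
    obtain ⟨ψ, hψ, hv⟩ := List.mem_flatMap.1 (show v ∈ (show List (List Lit) from
      tr vs A 0 b φ).flatMap (fun ψ => ψ.map Prod.fst) from hv)
    cases b with
    | true =>
      obtain ⟨δ, -, hψ⟩ := List.mem_flatMap.1 hψ
      obtain ⟨c, hc, rfl⟩ := List.mem_map.1 hψ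
      simp only [List.map_cons, List.map_nil, List.mem_singleton] at hv
      exact ⟨c, (List.mem_filter.1 hc).1, hv.symm⟩
    | false =>
      obtain ⟨δ, -, hψ⟩ := List.mem_flatMap.1 hψ
      obtain ⟨c, hc, rfl⟩ := List.mem_map.1 hψ
      simp only [List.map_cons, List.map_nil, List.mem_singleton] at hv
      exact ⟨c, (List.mem_filter.1 hc).1, hv.symm⟩
  | succ s ih =>
    intro b φ v hv
    obtain ⟨ψ, hψ, hv⟩ := List.mem_flatMap.1 (show v ∈ (show List (Fm (s + 1)) from
      tr vs A (s + 1) b φ).flatMap (vars (s + 1)) from hv)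
    have hψ' : ψ ∈ (show List (Fm (s + 1)) from φ).map (tr vs A s (!b)) := by
      cases b <;> exact hψ
    obtain ⟨χ, -, rfl⟩ := List.mem_map.1 hψ'
    exact ih _ _ _ hv

theorem vars_out (s : ℕ) (φ : Fm (s + 2)) (v : Var) (hv : v ∈ vars (s + 2)
    (outF d s vs r k φ)) : ∃ c ∈ tup d (pairs vs.length r k), nm c = v := by
  obtain ⟨ψ, hψ, hv⟩ := List.mem_flatMap.1 (show v ∈ (show List (Fm (s + 1)) from
    outF d s vs r k φ).flatMap (vars (s + 1)) from hv)
  rcases List.mem_append.1 hψ with hψ | hψ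
  · obtain ⟨cl, hcl, rfl⟩ := List.mem_map.1 hψ
    rw [vars_emb] at hv
    rcases List.mem_append.1 hcl with hcl | hcl
    · obtain ⟨J, -, rfl⟩ := List.mem_map.1 hcl
      simp only [List.map_map, List.mem_map, Function.comp] at hv
      obtain ⟨c, hc, hcv⟩ := hv
      exact ⟨c, (List.mem_filter.1 hc).1, hcv⟩
    · obtain ⟨c, hc, hcl⟩ := List.mem_flatMap.1 hcl
      obtain ⟨c', hc', rfl⟩ := List.mem_map.1 hcl
      simp only [List.map_cons, List.map_nil, List.mem_cons, List.not_mem_nil, or_false] at hv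
      rcases hv with rfl | rfl
      · exact ⟨c, hc, rfl⟩
      · exact ⟨c', (List.mem_filter.1 hc').1, rfl⟩
  · have : v ∈ vars (s + 2) (tr vs (tup d (pairs vs.length r k)) (s + 1) true φ) :=
      List.mem_flatMap.2 ⟨ψ, hψ, hv⟩
    exact vars_tr _ _ _ _ _ this

theorem cells_sub_vars (h : Chain vs.length r k V) (hr : 0 < r) (s : ℕ) (φ : Fm (s + 2))
    (v : Var) (hv : v ∈ cells d r k V) : v ∈ vars (s + 2) (outF d s vs r k φ) := by
  simp only [cells, List.mem_toFinset, List.mem_map] at hv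
  obtain ⟨J, hJ, rfl⟩ := hv
  refine List.mem_flatMap.2 ⟨emb s (((tup d (pairs vs.length r k)).filter
    (fun c => decide (c.map Prod.fst = J))).map (fun c => (nm c, true))), ?_, ?_⟩
  · exact List.mem_append_left _ (List.mem_map.2 ⟨_, List.mem_append_left _
      (List.mem_map.2 ⟨J, hJ, rfl⟩), rfl⟩)
  · rw [vars_emb, List.map_map, List.mem_map]
    refine ⟨cell V J, List.mem_filter.2 ⟨h.cell_mem hr hJ, ?_⟩, rfl⟩
    simp [cell, List.map_map, Function.comp_def]

theorem holds_out {Z : Finset Var} (s : ℕ) (φ : Fm (s + 2)) :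
    Holds Z (s + 2) true (outF d s vs r k φ) ↔
      Good d (k / r + 1) (tup d (pairs vs.length r k)) Z ∧
      Holds Z (s + 2) true (tr vs (tup d (pairs vs.length r k)) (s + 1) true φ) := by
  rw [holds_succ_true, holds_succ_true]
  change (∀ ψ ∈ (cls d (k / r + 1) (tup d (pairs vs.length r k))).map (emb s) ++
    (show List (Fm (s + 1)) from tr vs (tup d (pairs vs.length r k)) (s + 1) true φ), _) ↔ _
  rw [List.forall_mem_append, List.forall_mem_map, ← cls_iff]
  simp only [holds_emb]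

/-- **Correctness of the reduction.** -/
theorem out_correct (hd : 0 < d) (hr : 0 < r) (hn : vs.Nodup) (s : ℕ) (φ : Fm (s + 2))
    (hw : Width d (s + 2) φ) (hv : ∀ v, v ∈ vars (s + 2) φ ↔ v ∈ vs) :
    (∃ S : Finset Var, (∀ v ∈ S, v ∈ vars (s + 2) φ) ∧ S.card = k ∧ Holds S (s + 2) true φ) ↔
    (∃ Z : Finset Var, (∀ v ∈ Z, v ∈ vars (s + 2) (outF d s vs r k φ)) ∧
      Z.card = (k / r + 1) ^ d ∧ Holds Z (s + 2) true (outF d s vs r k φ)) := by
  constructor
  · rintro ⟨S, h1, h2, h3⟩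
    obtain ⟨V, hV, rfl⟩ := Pool.Agent.Lib.MP_b4f117_lc.exists_chain (r := r) hn S
      (fun v hvS => (hv v).1 (h1 v hvS)) h2
    refine ⟨cells d r k V, fun v hvZ => cells_sub_vars hV hr s φ v hvZ, card_cells, ?_⟩
    rw [holds_out]
    exact ⟨hV.good hr, (hV.tr_holds hr hn (s + 1) true φ hw (fun v => (hv v).1)).2 h3⟩
  · rintro ⟨Z, h1, h2, h3⟩
    rw [holds_out] at h3
    obtain ⟨V, hV, rfl⟩ := h3.1.exists_chain hd hr (fun z hz => vars_out s φ z (h1 z hz)) h2
    refine ⟨names vs r k V, fun v hvS => (hv v).2 (hV.names_sub hvS), hV.card_names hn, ?_⟩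
    exact (hV.tr_holds hr hn (s + 1) true φ hw (fun v => (hv v).1)).1 h3.2

end Pool.Agent.Lib.MP_b4f117_lc
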