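import Mathlib

/-!
# Weighted satisfiability for the classes `Γ_{t,d}` and ept-reductions

Machines are the machines `Turing.FinTM2` of Mathlib; instances are coded by bit strings.
-/

namespace Pool.Agent.Lib.MP_b4f117_lc

/-- A parameterized problem: its instances, their codes (bit strings), their parameters, and the
yes-instances. -/
structure ParamProblem where
  /-- the instances -/
  Inst : Type
  /-- the bit string that codes an instance -/
  code : Inst → List Bool
  /-- the parameter of an instance -/
  param : Inst → ℕ
  /-- the yes-instances -/
  Yes : Inst → Prop

/-- Started with the input `x`, the Turing machine `M` halts with the output `y` after at most `m`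
steps. -/
def Outputs (M : Turing.TM2ComputableAux Bool Bool) (x y : List Bool) (m : ℕ) : Prop :=
  Nonempty (Turing.TM2OutputsInTime M.tm (x.map M.inputAlphabet.invFun)
    (some (y.map M.outputAlphabet.invFun)) m)

/-- the self-delimiting unary code `1 0 1 0 … 1 0 0` of a natural number -/
def codeNat : ℕ → List Bool
  | 0 => [false]
  | n + 1 => true :: false :: codeNat n

/-- the code of a list: `1` before each entry, `0` at the end -/
def codeList {α : Type} (c : α → List Bool) : List α → List Bool
  | [] => [false]
  | a :: l => true :: (c a ++ codeList c l)

/-- the code of a pair -/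
def codePair {α β : Type} (c : α → List Bool) (d : β → List Bool) (p : α × β) : List Bool :=
  true :: (c p.1 ++ d p.2)

/-- propositional variables are named by bit strings -/
abbrev Var := List Bool

/-- a literal: a variable and a sign (`true`: the variable itself, `false`: its negation) -/
abbrev Lit := Var × Bool

/-- the literal is true under the assignment whose true variables are those in `S` -/
def LitHolds (ℓ : Lit) (S : Finset Var) : Prop := ℓ.1 ∈ S ↔ ℓ.2 = true

/-- The formulas of `Γ_t` and `Δ_t`: a list of literals for `t = 0`, a list of formulas of
depth `t` for depth `t + 1`. Whether the list is read as a conjunction or as a disjunction is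
decided by `Holds`. -/
def Fm : ℕ → Type
  | 0 => List Lit
  | t + 1 => List (Fm t)

/-- Truth of a formula of depth `t`. With `c = true` the outermost connective is read as a
conjunction (the formula belongs to `Γ_t`), with `c = false` as a disjunction (it belongs to
`Δ_t`); the connectives alternate. -/
def Holds (S : Finset Var) : (t : ℕ) → Bool → Fm t → Prop
  | 0, true, φ => ∀ ℓ ∈ (show List Lit from φ), LitHolds ℓ S
  | 0, false, φ => ∃ ℓ ∈ (show List Lit from φ), LitHolds ℓ S
  | t + 1, true, φ => ∀ ψ ∈ (show List (Fm t) from φ), Holds S t false ψ
  | t + 1, false, φ => ∃ ψ ∈ (show List (Fm t) from φ), Holds S t true ψ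

/-- every innermost conjunction or disjunction has at most `d` literals -/
def Width (d : ℕ) : (t : ℕ) → Fm t → Prop
  | 0, φ => (show List Lit from φ).length ≤ d
  | t + 1, φ => ∀ ψ ∈ (show List (Fm t) from φ), Width d t ψ

/-- the names of the variables of a formula, in order of occurrence -/
def vars : (t : ℕ) → Fm t → List Var
  | 0, φ => (show List Lit from φ).map Prod.fst
  | t + 1, φ => (show List (Fm t) from φ).flatMap (vars t)

/-- the number of variables of a formula -/
def numVars (t : ℕ) (φ : Fm t) : ℕ := (vars t φ).dedup.length

/-- the code of a bit -/
def codeBool (b : Bool) : List Bool := if b then [true, false, false] else [false]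

/-- the code of a formula -/
def codeFm : (t : ℕ) → Fm t → List Bool
  | 0, φ => codeList (codePair (codeList codeBool) codeBool) (show List Lit from φ)
  | t + 1, φ => codeList (codeFm t) (show List (Fm t) from φ)

/-- The problem `p-WSAT(Γ_{t,d})`: an instance is a formula `α` in `Γ_{t,d}` and a number `k`,
the parameter is `k`, and the question is whether `α` has a satisfying assignment of weight
exactly `k`. -/
def WSat (t d : ℕ) : ParamProblem where
  Inst := {x : Fm t × ℕ // Width d t x.1}
  code x := codePair (codeFm t) codeNat x.1
  param x := x.1.2
  Yes x := ∃ S : Finset Var, (∀ v ∈ S, v ∈ vars t x.1.1) ∧ S.card = x.1.2 ∧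
    Holds S t true x.1.1

/-- the size of an instance: the length of its code -/
def size {t d : ℕ} (x : (WSat t d).Inst) : ℕ := ((WSat t d).code x).length

/-- the restriction of a parameterized problem to a set of instances -/
def restrict (P : ParamProblem) (A : Set P.Inst) : ParamProblem where
  Inst := {x : P.Inst // x ∈ A}
  code x := P.code x.1
  param x := P.param x.1
  Yes x := P.Yes x.1

/-- There is an ept-reduction from `P` to `Q`: a function `R` that maps instances of `P` to
instances of `Q`, preserves the answer, is computed by a Turing machine in time
`C * 2 ^ (C * k) * n ^ C`, and whose values have parameter at most `C * (k + log n)`, where `k` is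
the parameter and `n` the length of the code of the instance. -/
def EptReducible (P Q : ParamProblem) : Prop :=
  ∃ (R : P.Inst → Q.Inst) (M : Turing.TM2ComputableAux Bool Bool) (C : ℕ),
    (∀ x, P.Yes x ↔ Q.Yes (R x)) ∧
    (∀ x, Outputs M (P.code x) (Q.code (R x))
      (C * 2 ^ (C * P.param x) * (P.code x).length ^ C)) ∧
    ∀ x, Q.param (R x) ≤ C * (P.param x + Nat.log 2 (P.code x).length)

end Pool.Agent.Lib.MP_b4f117_lc
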