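import Pool.Agent.Lib.MP_b4f117_lc.PT
import Pool.Agent.Lib.MP_b4f117_lc.Correct
import Pool.Agent.Lib.PolyTime.Budget

/-!
# The reduction as an ept-computable map, and its parameter
-/

namespace Pool.Agent.Lib.MP_b4f117_lc

open Pool.Agent.PolyTime Polynomial

/-! ### The length of the chunks -/

/-- one step in the computation of the length of the chunks -/
def rstep (m B : ℕ) (x : ℕ × ℕ) : ℕ × ℕ :=
  if x.2 * (m + 1) ≤ B then (x.1 + 1, x.2 * (m + 1)) else x

/-- the length of the chunks: the largest `r ≤ k + 1` with `(m + 1) ^ r ≤ B` (and at least one) -/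
def rr (m k B : ℕ) : ℕ := ((rstep m B)^[k] (1, m + 1)).1

theorem rstep_inv (m B i : ℕ) : ∀ x, (rstep m B)^[i] (1, m + 1) = x →
    x.2 = (m + 1) ^ x.1 ∧ 1 ≤ x.1 ∧ x.1 ≤ i + 1 ∧ x.2 ≤ B + m + 1 ∧
      (x.1 = i + 1 ∨ B < x.2 * (m + 1)) := by
  induction i with
  | zero =>
    rintro x rfl
    simp
  | succ i ih =>
    rintro x hx
    rw [Function.iterate_succ_apply'] at hx
    obtain ⟨h1, h2, h3, h4, h5⟩ := ih _ rfl
    rw [rstep] at hx
    split_ifs at hx with h
    · subst hx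
      refine ⟨?_, by simp, by simp; omega, by simp only; omega, ?_⟩
      · simp only [pow_succ, ← h1]
      · left
        rcases h5 with h5 | h5
        · simp only [h5]
        · omega
    · subst hx
      exact ⟨h1, h2, by omega, h4, Or.inr (by omega)⟩

theorem rr_pos (m k B : ℕ) : 0 < rr m k B := (rstep_inv m B k _ rfl).2.1

theorem pow_rr_le (m k B : ℕ) : (m + 1) ^ rr m k B ≤ B + m + 1 := by
  obtain ⟨h1, -, -, h4, -⟩ := rstep_inv m B k _ rfl
  rw [rr, ← h1]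
  exact h4

theorem rr_max (m k B : ℕ) : rr m k B = k + 1 ∨ B < (m + 1) ^ (rr m k B + 1) := by
  obtain ⟨h1, -, -, -, h5⟩ := rstep_inv m B k _ rfl
  rw [pow_succ, rr, ← h1]
  exact h5

variable {α : Type} [SCode α]

theorem ptime_rr {m k B : α → ℕ} (hm : PTime m) (hk : PTime k) (hB : PTime B) :
    PTime (fun a => rr (m a) (k a) (B a)) := by
  obtain ⟨P, hP⟩ := hm.sz_le
  obtain ⟨R, hR⟩ := hk.sz_le
  obtain ⟨S, hS⟩ := hB.sz_le
  refine PTime.fst.comp (?_ : PTime (fun a => (rstep (m a) (B a))^[k a] (1, m a + 1)))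
  refine PTime.iterate_of_bound (f := fun a x => rstep (m a) (B a) x) hk
    (PTime.pair (PTime.const 1) (PTime.succ hm)) ?_ (R + S + P + 10) ?_
  · have h1 : PTime (fun p : α × (ℕ × ℕ) => p.2.2 * (m p.1 + 1)) :=
      PTime.mul (PTime.snd.comp PTime.snd) (PTime.succ (hm.comp PTime.fst))
    exact PTime.ite (c := fun p : α × (ℕ × ℕ) => p.2.2 * (m p.1 + 1) ≤ B p.1)
      (PTime.nat_le h1 (hB.comp PTime.fst))
      (PTime.pair (PTime.succ (PTime.fst.comp PTime.snd)) h1) PTime.snd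
  · intro a i hi
    obtain ⟨-, -, h3, h4, -⟩ := rstep_inv (m a) (B a) i _ rfl
    have e1 := hP a
    have e2 := hR a
    have e3 := hS a
    rw [sz_nat] at e1 e2 e3
    rw [show (rstep (m a) (B a))^[i] (1, m a + 1) = (((rstep (m a) (B a))^[i] (1, m a + 1)).1,
      ((rstep (m a) (B a))^[i] (1, m a + 1)).2) from rfl, sz_pair, sz_nat, sz_nat]
    simp only [eval_add, eval_ofNat]
    omega

/-! ### The whole reduction -/

/-- the reduction, given a number `b` in place of `2 ^ k` -/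
def redF (d s : ℕ) (p : ℕ × (Fm (s + 2) × ℕ)) : Fm (s + 2) × ℕ :=
  (outF d s (vars (s + 2) p.2.1).dedup
    (rr (vars (s + 2) p.2.1).dedup.length p.2.2 (p.1 * sz p.2)) p.2.2 p.2.1,
   (p.2.2 / rr (vars (s + 2) p.2.1).dedup.length p.2.2 (p.1 * sz p.2) + 1) ^ d)

theorem ptime_redF (d s : ℕ) : PTime (redF d s) := by
  have hφ : PTime (fun p : ℕ × (Fm (s + 2) × ℕ) => p.2.1) := PTime.fst.comp PTime.snd
  have hk : PTime (fun p : ℕ × (Fm (s + 2) × ℕ) => p.2.2) := PTime.snd.comp PTime.snd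
  have hvs : PTime (fun p : ℕ × (Fm (s + 2) × ℕ) => (vars (s + 2) p.2.1).dedup) :=
    ptime_dedup ((ptime_vars (s + 2)).comp hφ)
  have hB : PTime (fun p : ℕ × (Fm (s + 2) × ℕ) => p.1 * sz p.2) :=
    PTime.mul PTime.fst (PTime.size.comp PTime.snd)
  have hr := ptime_rr (PTime.length hvs) hk hB
  obtain ⟨P, hP⟩ := (PTime.length hvs).sz_le
  obtain ⟨S, hS⟩ := hB.sz_le
  refine PTime.pair ?_ (PTime.natPow_const (PTime.succ (ptime_div hk hr
    (fun p => rr_pos _ _ _))) d)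
  refine ptime_outF d s hvs hr hk hφ (fun p => rr_pos _ _ _) (S + P + 1) ?_
  intro p
  have h1 := pow_rr_le (vars (s + 2) p.2.1).dedup.length p.2.2 (p.1 * sz p.2)
  have h2 := hP p
  have h3 := hS p
  rw [sz_nat] at h2 h3
  simp only [eval_add, eval_one]
  omega

/-! ### Codes -/

theorem codeBool_eq (b : Bool) : codeBool b = (enc b).bits := by cases b <;> rfl

theorem codeNat_eq (n : ℕ) : codeNat n = (enc n).bits := by
  induction n with
  | zero => rfl
  | succ n ih => simp [codeNat, ih, Sx.bits]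

theorem codeList_eq {β : Type} [SCode β] {c : β → List Bool} (hc : ∀ b, c b = (enc b).bits)
    (l : List β) : codeList c l = (enc l).bits := by
  induction l with
  | nil => rfl
  | cons a l ih => simp [codeList, ih, hc, Sx.bits]

theorem codePair_eq {β γ : Type} [SCode β] [SCode γ] {c : β → List Bool} {e : γ → List Bool}
    (hc : ∀ b, c b = (enc b).bits) (he : ∀ b, e b = (enc b).bits) (p : β × γ) :
    codePair c e p = (enc p).bits := by
  obtain ⟨a, b⟩ := p
  simp [codePair, hc, he, Sx.bits]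

theorem codeFm_eq (t : ℕ) : ∀ φ : Fm t, codeFm t φ = (enc φ).bits := by
  induction t with
  | zero =>
    intro φ
    exact codeList_eq (β := Lit) (fun b => codePair_eq (fun l => codeList_eq codeBool_eq l)
      codeBool_eq b) (show List Lit from φ)
  | succ t ih =>
    intro φ
    exact codeList_eq (β := Fm t) ih (show List (Fm t) from φ)

theorem code_eq {t d : ℕ} (x : (WSat t d).Inst) : (WSat t d).code x = (enc x.1).bits :=
  codePair_eq (codeFm_eq t) codeNat_eq x.1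

theorem size_eq {t d : ℕ} (x : (WSat t d).Inst) : size x = sz x.1 := by
  rw [size, code_eq, Sx.length_bits]
  rfl

/-! ### The width of the new formula -/

theorem width_single (t : ℕ) (ℓ : Lit) : Width 1 t (single t ℓ) := by
  induction t with
  | zero => exact le_rfl
  | succ t ih =>
    intro ψ hψ
    rw [List.mem_singleton.1 (show ψ ∈ [single t ℓ] from hψ)]
    exact ih

theorem width_tr (vs : List Var) (A : List (List Entry)) : ∀ (s : ℕ) (b : Bool) (φ : Fm (s + 1)),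
    Width 1 (s + 1) (tr vs A s b φ) := by
  intro s
  induction s with
  | zero =>
    intro b φ
    cases b with
    | true =>
      intro ψ hψ
      obtain ⟨δ, -, hψ⟩ := List.mem_flatMap.1 hψ
      obtain ⟨c, hc, rfl⟩ := List.mem_map.1 hψ
      exact le_rfl
    | false =>
      intro ψ hψ
      obtain ⟨δ, -, hψ⟩ := List.mem_flatMap.1 hψ
      obtain ⟨c, hc, rfl⟩ := List.mem_map.1 hψ
      exact le_rfl
  | succ s ih =>
    intro b φ ψ hψ
    have hψ' : ψ ∈ (show List (Fm (s + 1)) from φ).map (tr vs A s (!b)) := by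
      cases b <;> exact hψ
    obtain ⟨χ, -, rfl⟩ := List.mem_map.1 hψ'
    exact ih _ _

theorem width_out (d s : ℕ) (vs : List Var) (r k : ℕ) (φ : Fm (s + 2)) :
    Width 1 (s + 2) (outF d s vs r k φ) := by
  intro ψ hψ
  rcases List.mem_append.1 hψ with hψ | hψ
  · obtain ⟨cl, -, rfl⟩ := List.mem_map.1 hψ
    intro χ hχ
    obtain ⟨ℓ, -, rfl⟩ := List.mem_map.1 hχ
    exact width_single s ℓ
  · exact width_tr _ _ (s + 1) true φ ψ hψ

/-- the reduction -/
def R (d s : ℕ) (x : (WSat (s + 2) d).Inst) : (WSat (s + 2) 1).Inst :=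
  ⟨redF d s (2 ^ x.1.2, x.1), width_out _ _ _ _ _ _⟩

theorem R_correct {d : ℕ} (hd : 0 < d) (s : ℕ) (x : (WSat (s + 2) d).Inst) :
    (WSat (s + 2) d).Yes x ↔ (WSat (s + 2) 1).Yes (R d s x) :=
  out_correct hd (rr_pos _ _ _) (List.nodup_dedup _) s x.1.1 x.2 (fun _ => List.mem_dedup.symm)

theorem R_time (d s : ℕ) : ∃ (M : Turing.TM2ComputableAux Bool Bool) (C : ℕ),
    ∀ x : (WSat (s + 2) d).Inst, Outputs M ((WSat (s + 2) d).code x)
      ((WSat (s + 2) 1).code (R d s x)) (C * 2 ^ (C * x.1.2) * size x ^ C) := by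
  have h1 := BTime.two_pow (α := Fm (s + 2) × ℕ) (κ := fun a => a.2) PTime.snd
  have h2 := BTime.comp_ptime (ptime_redF d s) h1 (C 5 * X) (by
    intro a
    have e1 : 1 ≤ sz a := sz_pos a
    have e2 : 1 ≤ 2 ^ a.2 := Nat.one_le_two_pow
    have e3 : 2 ^ a.2 ≤ 2 ^ a.2 * sz a := Nat.le_mul_of_pos_right _ e1
    have e4 : sz a ≤ 2 ^ a.2 * sz a := Nat.le_mul_of_pos_left _ e2
    rw [sz_pair, sz_nat]
    simp only [eval_mul, eval_C, eval_X]
    omega)
  obtain ⟨tm, e₀, e₁, P, hP⟩ := h2.exists_tm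
  obtain ⟨C, c, hC⟩ := poly_bound P
  refine ⟨⟨tm, e₀, e₁⟩, C * 2 ^ c + c, fun x => ?_⟩
  rw [code_eq, code_eq, size_eq]
  obtain ⟨h3⟩ := hP x.1
  refine ⟨⟨h3.toEvalsTo, h3.steps_le_m.trans ?_⟩⟩
  refine (hC _).trans ?_
  have e1 : 1 ≤ sz x.1 := sz_pos x.1
  have e2 : 1 ≤ 2 ^ x.1.2 := Nat.one_le_two_pow
  have e3 : 1 ≤ 2 ^ x.1.2 * sz x.1 := Nat.one_le_iff_ne_zero.2 (by positivity)
  calc C * (2 ^ x.1.2 * sz x.1 + 1) ^ c
      ≤ C * (2 * (2 ^ x.1.2 * sz x.1)) ^ c :=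
        Nat.mul_le_mul_left _ (Nat.pow_le_pow_left (by omega) _)
    _ = (C * 2 ^ c) * 2 ^ (c * x.1.2) * sz x.1 ^ c := by
        rw [mul_pow, mul_pow, ← pow_mul, mul_comm x.1.2 c]; ring
    _ ≤ (C * 2 ^ c + c) * 2 ^ ((C * 2 ^ c + c) * x.1.2) * sz x.1 ^ (C * 2 ^ c + c) := by
        refine Nat.mul_le_mul (Nat.mul_le_mul (by omega) (Nat.pow_le_pow_right (by norm_num)
          (Nat.mul_le_mul_right _ (by omega)))) (Nat.pow_le_pow_right e1 (by omega))

theorem R_param (d s : ℕ) (x : (WSat (s + 2) d).Inst) :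
    (R d s x).1.2 * (x.1.2 + Nat.log 2 (size x)) ^ d ≤
      3 ^ d * (x.1.2 * Nat.log 2 (numVars (s + 2) x.1.1) + x.1.2 + Nat.log 2 (size x)) ^ d := by
  rw [size_eq]
  set k := x.1.2 with hk
  set m := numVars (s + 2) x.1.1 with hm
  set n := sz x.1 with hn
  change (k / rr m k (2 ^ k * n) + 1) ^ d * (k + Nat.log 2 n) ^ d ≤ _
  rw [← mul_pow, ← mul_pow]
  refine Nat.pow_le_pow_left ?_ _
  have hr := rr_pos m k (2 ^ k * n)
  rcases rr_max m k (2 ^ k * n) with h | h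
  · rw [h, Nat.div_eq_of_lt (Nat.lt_succ_self k)]
    nlinarith
  · set r := rr m k (2 ^ k * n) with hr'
    have hn1 : n ≠ 0 := (sz_pos x.1).ne'
    have h1 : 2 ^ Nat.log 2 n ≤ n := Nat.pow_log_le_self 2 hn1
    have h2 : m + 1 ≤ 2 ^ (Nat.log 2 m + 1) := Nat.lt_pow_succ_log_self (by norm_num) m
    have h3 : 2 ^ (k + Nat.log 2 n) < 2 ^ ((Nat.log 2 m + 1) * (r + 1)) := by
      calc 2 ^ (k + Nat.log 2 n) = 2 ^ k * 2 ^ Nat.log 2 n := pow_add _ _ _
        _ ≤ 2 ^ k * n := Nat.mul_le_mul_left _ h1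
        _ < (m + 1) ^ (r + 1) := h
        _ ≤ (2 ^ (Nat.log 2 m + 1)) ^ (r + 1) := Nat.pow_le_pow_left h2 _
        _ = 2 ^ ((Nat.log 2 m + 1) * (r + 1)) := by rw [← pow_mul]
    have h4 := (Nat.pow_lt_pow_iff_right (by norm_num : 1 < 2)).1 h3
    have h5 : k / r * r ≤ k := Nat.div_mul_le_self k r
    have h6 : k / r * (k + Nat.log 2 n) ≤ 2 * k * (Nat.log 2 m + 1) := by
      calc k / r * (k + Nat.log 2 n) ≤ k / r * ((Nat.log 2 m + 1) * (r + 1)) :=
            Nat.mul_le_mul_left _ h4.le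
        _ ≤ k / r * ((Nat.log 2 m + 1) * (2 * r)) :=
            Nat.mul_le_mul_left _ (Nat.mul_le_mul_left _ (by omega))
        _ = 2 * (k / r * r) * (Nat.log 2 m + 1) := by ring
        _ ≤ 2 * k * (Nat.log 2 m + 1) :=
            Nat.mul_le_mul_right _ (Nat.mul_le_mul_left _ h5)
    nlinarith

end Pool.Agent.Lib.MP_b4f117_lc
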