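import Pool.Agent.Lib.MP_b4f117_lc.Final

/-!
# Consequences for restricted instances
-/

namespace Pool.Agent.Lib.MP_b4f117_lc

open Pool.Agent.PolyTime

theorem length_vars_le (t : ℕ) : ∀ φ : Fm t, (vars t φ).length ≤ sz φ := by
  induction t with
  | zero =>
    intro φ
    have := length_le_sz (show List Lit from φ)
    change ((show List Lit from φ).map Prod.fst).length ≤ _
    rw [List.length_map]
    exact (by omega : (show List Lit from φ).length ≤ sz (show List Lit from φ))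
  | succ t ih =>
    intro φ
    change ((show List (Fm t) from φ).flatMap (vars t)).length ≤ sz (show List (Fm t) from φ)
    induction (show List (Fm t) from φ) with
    | nil => simp
    | cons a l ihl =>
      have := ih a
      rw [List.flatMap_cons, List.length_append, sz_cons]
      omega

theorem numVars_le {t d : ℕ} (x : (WSat t d).Inst) : numVars t x.1.1 ≤ size x := by
  rw [size_eq]
  have h1 := length_vars_le t x.1.1
  have h2 : numVars t x.1.1 ≤ (vars t x.1.1).length := (List.dedup_sublist _).length_le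
  have h3 : sz x.1 = sz x.1.1 + sz x.1.2 + 1 := sz_pair _ _
  omega

theorem log_size_pos {t d : ℕ} (x : (WSat t d).Inst) : 0 < Nat.log 2 (size x) := by
  refine Nat.log_pos (by norm_num) ?_
  rw [size_eq]
  have h3 : sz x.1 = sz x.1.1 + sz x.1.2 + 1 := sz_pair _ _
  have := sz_pos x.1.1
  omega

theorem add_pow_le_two_pow (a b d : ℕ) : (a + b) ^ d ≤ 2 ^ d * (a ^ d + b ^ d) := by
  rcases le_total a b with h | h
  · calc (a + b) ^ d ≤ (2 * b) ^ d := Nat.pow_le_pow_left (by omega) _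
      _ = 2 ^ d * b ^ d := mul_pow _ _ _
      _ ≤ _ := Nat.mul_le_mul_left _ (by omega)
  · calc (a + b) ^ d ≤ (2 * a) ^ d := Nat.pow_le_pow_left (by omega) _
      _ = 2 ^ d * a ^ d := mul_pow _ _ _
      _ ≤ _ := Nat.mul_le_mul_left _ (by omega)

/-- from the bound for the new parameter to a linear bound -/
theorem linear_bound {d c k' a K : ℕ} (hK : 0 < K) (h : k' * K ^ d ≤ 3 ^ d * (a + K) ^ d)
    (ha : a ^ d ≤ c * K ^ (d + 1)) : k' ≤ 6 ^ d * (c + 1) * K := by
  have h1 : 0 < K ^ d := by positivity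
  refine Nat.le_of_mul_le_mul_right ?_ h1
  calc k' * K ^ d ≤ 3 ^ d * (a + K) ^ d := h
    _ ≤ 3 ^ d * (2 ^ d * (a ^ d + K ^ d)) := Nat.mul_le_mul_left _ (add_pow_le_two_pow a K d)
    _ = 6 ^ d * (a ^ d + K ^ d) := by
        rw [← mul_assoc, ← mul_pow]
        norm_num
    _ ≤ 6 ^ d * (c * K ^ (d + 1) + K * K ^ d) :=
        Nat.mul_le_mul_left _ (Nat.add_le_add ha (Nat.le_mul_of_pos_left _ hK))
    _ = 6 ^ d * (c + 1) * K * K ^ d := by ring

theorem eptReducible_of_small {s d : ℕ} (hd : 0 < d) (c : ℕ) (A : Set (WSat (s + 2) d).Inst)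
    (hA : ∀ x ∈ A, (x.1.2 * Nat.log 2 (numVars (s + 2) x.1.1)) ^ d ≤
      c * (x.1.2 + Nat.log 2 (size x)) ^ (d + 1)) :
    EptReducible (restrict (WSat (s + 2) d) A) (WSat (s + 2) 1) := by
  obtain ⟨M, C, hM⟩ := R_time d s
  refine ⟨fun x => R d s x.1, M, C + 6 ^ d * (c + 1), fun x => R_correct hd s x.1, ?_, ?_⟩
  · intro x
    obtain ⟨h⟩ := hM x.1
    refine ⟨⟨h.toEvalsTo, h.steps_le_m.trans ?_⟩⟩
    change C * 2 ^ (C * x.1.1.2) * size x.1 ^ C ≤ (C + 6 ^ d * (c + 1)) *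
      2 ^ ((C + 6 ^ d * (c + 1)) * x.1.1.2) * size x.1 ^ (C + 6 ^ d * (c + 1))
    have e1 : 1 ≤ size x.1 := by rw [size_eq]; exact sz_pos _
    exact Nat.mul_le_mul (Nat.mul_le_mul (Nat.le_add_right _ _) (Nat.pow_le_pow_right (by norm_num)
      (Nat.mul_le_mul_right _ (Nat.le_add_right _ _))))
      (Nat.pow_le_pow_right e1 (Nat.le_add_right _ _))
  · intro x
    have h1 := R_param d s x.1
    have h2 := hA x.1 x.2
    have h3 := log_size_pos x.1
    rw [Nat.add_assoc] at h1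
    have h4 := linear_bound (by omega) h1 h2
    refine h4.trans ?_
    exact Nat.mul_le_mul_right _ (Nat.le_add_left _ _)

theorem small_of_outside {s d : ℕ} (c : ℕ) (x : (WSat (s + 2) d).Inst)
    (h : x.1.2 ^ d ≤ c * Nat.log 2 (size x) ∨ Nat.log 2 (size x) ^ d ≤ c * x.1.2) :
    (x.1.2 * Nat.log 2 (numVars (s + 2) x.1.1)) ^ d ≤
      c * (x.1.2 + Nat.log 2 (size x)) ^ (d + 1) := by
  have h1 : Nat.log 2 (numVars (s + 2) x.1.1) ≤ Nat.log 2 (size x) :=
    Nat.log_mono_right (numVars_le x)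
  have h2 : Nat.log 2 (numVars (s + 2) x.1.1) ^ d ≤ Nat.log 2 (size x) ^ d :=
    Nat.pow_le_pow_left h1 _
  rw [mul_pow]
  rcases h with h | h
  · calc x.1.2 ^ d * Nat.log 2 (numVars (s + 2) x.1.1) ^ d
        ≤ (c * Nat.log 2 (size x)) * Nat.log 2 (size x) ^ d := Nat.mul_le_mul h h2
      _ = c * Nat.log 2 (size x) ^ (d + 1) := by ring
      _ ≤ _ := Nat.mul_le_mul_left _ (Nat.pow_le_pow_left (by omega) _)
  · calc x.1.2 ^ d * Nat.log 2 (numVars (s + 2) x.1.1) ^ d
        ≤ x.1.2 ^ d * (c * x.1.2) := Nat.mul_le_mul_left _ (h2.trans h)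
      _ = c * x.1.2 ^ (d + 1) := by ring
      _ ≤ _ := Nat.mul_le_mul_left _ (Nat.pow_le_pow_left (by omega) _)

end Pool.Agent.Lib.MP_b4f117_lc
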