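import Pool.Agent.Lib.MP_b4f117_lc.Red
import Pool.Agent.Lib.PolyTime.Eq
import Pool.Agent.Lib.MP_b4f117_lc.Arith

/-!
# The parts of the reduction are computable in polynomial time
-/

namespace Pool.Agent.Lib.MP_b4f117_lc

open Pool.Agent.PolyTime Polynomial

/-! ### The bits of a code -/

/-- one step of the depth-first traversal of a stack of S-expressions -/
def bstep (x : List Sx × List Bool) : List Sx × List Bool :=
  (List.casesOn x.1 x (fun y st =>
    if y = Sx.nil then (st, false :: x.2) else (y.hd :: y.tl :: st, true :: x.2)) :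
      List Sx × List Bool)

theorem bstep_iterate : ∀ (n : ℕ) (st : List Sx) (out : List Bool),
    (st.map Sx.size).sum ≤ n → bstep^[n] (st, out) = ([], (st.flatMap Sx.bits).reverse ++ out) := by
  intro n
  induction n with
  | zero =>
    intro st out h
    cases st with
    | nil => simp
    | cons y st =>
      have := y.size_pos
      simp only [List.map_cons, List.sum_cons] at h
      omega
  | succ n ih =>
    intro st out h
    rw [Function.iterate_succ_apply]
    cases st with
    | nil =>
      have : bstep ([], out) = ([], out) := rfl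
      rw [this]
      exact ih [] out (by simp)
    | cons y st =>
      simp only [List.map_cons, List.sum_cons] at h
      cases y with
      | nil =>
        have : bstep (Sx.nil :: st, out) = (st, false :: out) := by simp [bstep]
        rw [this, ih _ _ (by simp only [Sx.size] at h; omega)]
        simp [Sx.bits]
      | cons a b =>
        have : bstep (Sx.cons a b :: st, out) = (a :: b :: st, true :: out) := by
          simp [bstep, Sx.hd, Sx.tl]
        rw [this, ih _ _ (by
          simp only [Sx.size] at h
          simp only [List.map_cons, List.sum_cons]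
          omega)]
        simp [Sx.bits]

theorem bstep_ptime : PTime bstep := by
  refine PTime.list_casesOn (f := fun s : List Sx × List Bool => s.1)
    (h := fun s y st => if y = Sx.nil then (st, false :: s.2) else
      (y.hd :: y.tl :: st, true :: s.2)) PTime.fst PTime.id ?_
  refine PTime.ite (c := fun q : (List Sx × List Bool) × Sx × List Sx => q.2.1 = Sx.nil)
    (PTime.sx_isNil (PTime.fst.comp PTime.snd)) ?_ ?_
  · exact PTime.pair (PTime.snd.comp PTime.snd)
      (PTime.cons (PTime.const false) (PTime.snd.comp PTime.fst))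
  · exact PTime.pair (PTime.cons (PTime.sx_hd (PTime.fst.comp PTime.snd))
      (PTime.cons (PTime.sx_tl (PTime.fst.comp PTime.snd)) (PTime.snd.comp PTime.snd)))
      (PTime.cons (PTime.const true) (PTime.snd.comp PTime.fst))

theorem ptime_bits {α : Type} [SCode α] {f : α → Sx} (hf : PTime f) :
    PTime (fun a => (f a).bits) := by
  have h : PTime (fun x : Sx => bstep^[sz x] ([x], [])) := by
    refine PTime.iterate (f := fun _ s => bstep s) PTime.size
      (PTime.pair (PTime.cons PTime.id (PTime.const [])) (PTime.const []))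
      (bstep_ptime.comp PTime.snd) 4 ?_
    rintro - ⟨st, out⟩
    have h1 : ∀ x : Sx, sz x = x.size := fun _ => rfl
    have e4 : eval (sz (st, out)) (4 : ℕ[X]) = 4 := by simp
    rcases st with _ | ⟨y, st⟩
    · have : bstep ([], out) = ([], out) := rfl
      simp only [this]
      omega
    · cases y with
      | nil =>
        have : bstep (Sx.nil :: st, out) = (st, false :: out) := by simp [bstep]
        simp only [this, sz_pair, sz_cons, h1, Sx.size, sz_false]
        simp only [eval_ofNat]
        omega
      | cons a b =>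
        have : bstep (Sx.cons a b :: st, out) = (a :: b :: st, true :: out) := by
          simp [bstep, Sx.hd, Sx.tl]
        simp only [this, sz_pair, sz_cons, h1, Sx.size, sz_true]
        simp only [eval_ofNat]
        omega
  have h2 : PTime (fun x : Sx => x.bits) := by
    refine (PTime.reverse (PTime.snd.comp h)).of_eq fun x => ?_
    rw [bstep_iterate _ _ _ (by simp; exact le_rfl)]
    simp
  exact h2.comp hf

theorem ptime_nm {α : Type} [SCode α] {f : α → List Entry} (hf : PTime f) :
    PTime (fun a => nm (f a)) := ptime_bits (PTime.encode.comp hf)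

/-! ### Formulas -/

/-- codes of formulas -/
@[instance_reducible] def fmCode : (t : ℕ) → SCode (Fm t)
  | 0 => inferInstanceAs (SCode (List Lit))
  | t + 1 => haveI := fmCode t; inferInstanceAs (SCode (List (Fm t)))

instance (t : ℕ) : SCode (Fm t) := fmCode t

variable {α : Type} [SCode α]

theorem ptime_toList {t : ℕ} {f : α → Fm (t + 1)} (hf : PTime f) :
    PTime (fun a => (show List (Fm t) from f a)) := hf

theorem ptime_ofList {t : ℕ} {f : α → List (Fm t)} (hf : PTime f) :
    PTime (fun a => (show Fm (t + 1) from f a)) := hf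

theorem ptime_vars (t : ℕ) : PTime (vars t) := by
  induction t with
  | zero =>
    exact PTime.map (l := fun φ : Fm 0 => (show List Lit from φ)) (f := fun _ x => x.1)
      (PTime.of_enc fun _ => rfl) (PTime.fst.comp PTime.snd)
  | succ t ih =>
    exact PTime.flatMap (l := fun φ : Fm (t + 1) => (show List (Fm t) from φ))
      (f := fun _ ψ => vars t ψ) (PTime.of_enc fun _ => rfl) (ih.comp PTime.snd)

theorem ptime_dedup {β : Type} [SCode β] [DecidableEq β] {l : α → List β} (hl : PTime l) :
    PTime (fun a => (l a).dedup) := by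
  have h : PTime (fun l : List β => l.foldr (fun b s => if b ∈ s then s else b :: s) []) := by
    refine PTime.foldr (f := fun _ b s => if b ∈ s then s else b :: s) PTime.id
      (PTime.const []) ?_ (X + 1) ?_
    · exact PTime.ite (c := fun p : List β × β × List β => p.2.1 ∈ p.2.2)
        (PTime.mem (PTime.fst.comp PTime.snd) (PTime.snd.comp PTime.snd))
        (PTime.snd.comp PTime.snd)
        (PTime.cons (PTime.fst.comp PTime.snd) (PTime.snd.comp PTime.snd))
    · intro a s b hb
      have := sz_le_of_mem hb
      simp only [eval_add, eval_X, eval_one]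
      split_ifs
      · omega
      · simp only [sz_cons]; omega
  refine (h.comp hl).of_eq fun a => ?_
  induction l a with
  | nil => rfl
  | cons b l ih =>
    rw [List.foldr_cons, ih]
    by_cases hb : b ∈ l
    · rw [List.dedup_cons_of_mem hb, if_pos (List.mem_dedup.2 hb)]
    · rw [List.dedup_cons_of_notMem hb, if_neg (fun h => hb (List.mem_dedup.1 h))]

/-! ### Lists of positions -/

/-- one more round of `lists` -/
def lstep (m : ℕ) (L : List (List ℕ)) : List (List ℕ) :=
  [] :: L.flatMap (fun l => (List.range m).map (fun a => a :: l))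

theorem lstep_iterate (m r : ℕ) : (lstep m)^[r] [[]] = lists m r := by
  induction r with
  | zero => rfl
  | succ r ih => rw [Function.iterate_succ_apply', ih]; rfl

theorem length_lists (m r : ℕ) : (lists m r).length ≤ (m + 1) ^ r := by
  induction r with
  | zero => simp [lists]
  | succ r ih =>
    simp only [lists, List.length_cons, List.length_flatMap, List.length_map, List.length_range,
      List.map_const', List.sum_replicate, smul_eq_mul]
    have : 1 ≤ (m + 1) ^ r := Nat.one_le_pow _ _ (by omega)
    have h2 : (lists m r).length * m ≤ (m + 1) ^ r * m := Nat.mul_le_mul_right _ ih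
    rw [pow_succ, mul_add, mul_one]
    omega

theorem sz_le_of_forall {β : Type} [SCode β] (L : List β) (M : ℕ) (h : ∀ b ∈ L, sz b ≤ M) :
    sz L ≤ L.length * (M + 1) + 1 := by
  induction L with
  | nil => simp
  | cons b L ih =>
    have h1 := h b List.mem_cons_self
    have h2 := ih (fun c hc => h c (List.mem_cons_of_mem _ hc))
    simp only [sz_cons, List.length_cons, Nat.succ_mul]
    omega

theorem sz_lists (m r : ℕ) : sz (lists m r) ≤ (m + 1) ^ r * (r * (2 * m + 2) + 2) + 1 := by
  have h1 : ∀ l ∈ lists m r, sz l ≤ r * (2 * m + 2) + 1 := by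
    intro l hl
    obtain ⟨h2, h3⟩ := mem_lists.1 hl
    have h4 := sz_le_of_forall l (2 * m + 1) (fun a ha => by
      have := h3 a ha
      rw [sz_nat]; omega)
    have h5 : l.length * (2 * m + 1 + 1) ≤ r * (2 * m + 2) := Nat.mul_le_mul h2 (by omega)
    omega
  have h2 := sz_le_of_forall (lists m r) _ h1
  have h3 : (lists m r).length * (r * (2 * m + 2) + 1 + 1) ≤
      (m + 1) ^ r * (r * (2 * m + 2) + 2) := Nat.mul_le_mul (length_lists m r) (by omega)
  omega

theorem ptime_lists {m r : α → ℕ} (hm : PTime m) (hr : PTime r) (Q : ℕ[X])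
    (hQ : ∀ a, (m a + 1) ^ r a ≤ Q.eval (sz a)) : PTime (fun a => lists (m a) (r a)) := by
  obtain ⟨P, hP⟩ := hm.sz_le
  obtain ⟨R, hR⟩ := hr.sz_le
  have h : PTime (fun a => (lstep (m a))^[r a] [[]]) := by
    refine PTime.iterate_of_bound (f := fun a s => lstep (m a) s) hr (PTime.const [[]]) ?_
      (Q * (R * (C 2 * P + 2) + 2) + 1) ?_
    · refine PTime.cons (PTime.const []) (PTime.flatMap (f := fun (p : α × List (List ℕ)) l =>
        (List.range (m p.1)).map (fun a => a :: l)) PTime.snd ?_)
      refine PTime.map (f := fun (q : (α × List (List ℕ)) × List ℕ) a => a :: q.2) ?_ ?_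
      · exact PTime.range (hm.comp (PTime.fst.comp PTime.fst))
      · exact PTime.cons PTime.snd (PTime.snd.comp PTime.fst)
    · intro a i hi
      rw [lstep_iterate]
      have h1 := sz_lists (m a) i
      have h2 := hP a
      have h3 := hR a
      rw [sz_nat] at h2 h3
      have h4 : (m a + 1) ^ i ≤ (m a + 1) ^ r a := Nat.pow_le_pow_right (by omega) hi
      have h5 := hQ a
      simp only [eval_add, eval_mul, eval_C, eval_ofNat, eval_one]
      have h6 : (m a + 1) ^ i * (i * (2 * m a + 2) + 2) ≤
          eval (sz a) Q * (eval (sz a) R * (2 * eval (sz a) P + 2) + 2) := by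
        refine Nat.mul_le_mul (h4.trans h5) ?_
        have : i * (2 * m a + 2) ≤ eval (sz a) R * (2 * eval (sz a) P + 2) :=
          Nat.mul_le_mul (by omega) (by omega)
        omega
      omega
  exact h.of_eq fun a => lstep_iterate _ _

theorem ptime_tup {β : Type} [SCode β] (d : ℕ) {P : α → List β} (hP : PTime P) :
    PTime (fun a => tup d (P a)) := by
  induction d with
  | zero => exact PTime.const [[]]
  | succ d ih =>
    refine PTime.flatMap (f := fun a p => (tup d (P a)).map (fun c => p :: c)) hP ?_
    refine PTime.map (f := fun (q : α × β) c => q.2 :: c) (ih.comp PTime.fst) ?_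
    exact PTime.cons (PTime.snd.comp PTime.fst) PTime.snd

theorem chk_eq_foldl (l : List ℕ) : ∀ (lo hi : ℕ) (b : Bool), (b && chk lo l hi) =
    ((l.foldl (fun s a => (a + 1, s.2 && decide (s.1 ≤ a))) (lo, b)).2 &&
      decide ((l.foldl (fun s a => (a + 1, s.2 && decide (s.1 ≤ a))) (lo, b)).1 ≤ hi)) := by
  induction l with
  | nil => intro lo hi b; rfl
  | cons a l ih =>
    intro lo hi b
    rw [List.foldl_cons, ← ih]
    simp only [chk, Bool.and_assoc]

theorem ptime_chk {lo hi : α → ℕ} {l : α → List ℕ} (h1 : PTime lo) (h2 : PTime l)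
    (h3 : PTime hi) : PTime (fun a => chk (lo a) (l a) (hi a)) := by
  obtain ⟨R, hR⟩ := h2.sz_le
  have h : PTime (fun a => (l a).foldl (fun (s : ℕ × Bool) x => (x + 1, s.2 && decide (s.1 ≤ x)))
      (lo a, true)) := by
    refine PTime.foldl (f := fun _ (s : ℕ × Bool) x => (x + 1, s.2 && decide (s.1 ≤ x))) h2
      (PTime.pair h1 (PTime.const true)) ?_ (R + 5) ?_
    · exact PTime.pair (PTime.succ (PTime.snd.comp PTime.snd)) (PTime.and
        (PTime.snd.comp (PTime.fst.comp PTime.snd)) (PTime.nat_le
        (PTime.fst.comp (PTime.fst.comp PTime.snd)) (PTime.snd.comp PTime.snd)))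
    · intro a s b hb
      have e1 := sz_le_of_mem hb
      have e2 := hR a
      have e3 := sz_bool_le (s.2 && decide (s.1 ≤ b))
      simp only [sz_nat] at e1
      simp only [sz_pair, sz_nat, eval_add, eval_ofNat]
      omega
  refine (PTime.and (PTime.snd.comp h) (PTime.nat_le (PTime.fst.comp h) h3)).of_eq fun a => ?_
  rw [← chk_eq_foldl, Bool.true_and]

theorem ptime_vok {m r k j : α → ℕ} {v : α → Val} (hm : PTime m) (hr : PTime r) (hk : PTime k)
    (hj : PTime j) (hv : PTime v) (hpos : ∀ a, 0 < r a) :
    PTime (fun a => vok (m a) (r a) (k a) (j a) (v a)) := by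
  have hlo : PTime (fun a => (v a).1) := PTime.fst.comp hv
  have hc : PTime (fun a => (v a).2.1) := PTime.fst.comp (PTime.snd.comp hv)
  have hhi : PTime (fun a => (v a).2.2) := PTime.snd.comp (PTime.snd.comp hv)
  have hdiv := ptime_div hk hr hpos
  have hmod := ptime_mod hk hr hpos
  refine PTime.and (ptime_chk hlo hc hhi) (PTime.and (PTime.nat_le hhi hm) (PTime.and ?_
    (PTime.and (PTime.or (PTime.not (PTime.nat_eq hj (PTime.const 0)))
      (PTime.nat_eq hlo (PTime.const 0))) (PTime.or (PTime.not (PTime.nat_eq hj hdiv))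
      (PTime.nat_eq hhi hm)))))
  exact PTime.nat_eq (PTime.length hc) (PTime.ite (c := fun a => j a = k a / r a)
    (PTime.nat_eq hj hdiv) hmod hr)

theorem ptime_pairs {m r k : α → ℕ} (hm : PTime m) (hr : PTime r) (hk : PTime k)
    (hpos : ∀ a, 0 < r a) (Q : ℕ[X]) (hQ : ∀ a, (m a + 1) ^ r a ≤ Q.eval (sz a)) :
    PTime (fun a => pairs (m a) (r a) (k a)) := by
  have hL := ptime_lists hm hr Q hQ
  have hdiv := ptime_div hk hr hpos
  refine PTime.flatMap (f := fun a j => (List.range (m a + 1)).flatMap (fun lo =>
      (List.range (m a + 1)).flatMap (fun hi =>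
        ((lists (m a) (r a)).map (fun c => (j, lo, c, hi))).filter
          (fun e => vok (m a) (r a) (k a) e.1 e.2)))) (PTime.range (PTime.succ hdiv)) ?_
  refine PTime.flatMap (f := fun (q : α × ℕ) lo =>
      (List.range (m q.1 + 1)).flatMap (fun hi =>
        ((lists (m q.1) (r q.1)).map (fun c => (q.2, lo, c, hi))).filter
          (fun e => vok (m q.1) (r q.1) (k q.1) e.1 e.2)))
    (PTime.range (PTime.succ (hm.comp PTime.fst))) ?_
  refine PTime.flatMap (f := fun (q : (α × ℕ) × ℕ) hi =>
        ((lists (m q.1.1) (r q.1.1)).map (fun c => (q.1.2, q.2, c, hi))).filter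
          (fun e => vok (m q.1.1) (r q.1.1) (k q.1.1) e.1 e.2))
    (PTime.range (PTime.succ (hm.comp (PTime.fst.comp PTime.fst)))) ?_
  refine PTime.filter (l := fun q : ((α × ℕ) × ℕ) × ℕ =>
      (lists (m q.1.1.1) (r q.1.1.1)).map (fun c => (q.1.1.2, q.1.2, c, q.2)))
    (p := fun q e => vok (m q.1.1.1) (r q.1.1.1) (k q.1.1.1) e.1 e.2) ?_ ?_
  · refine PTime.map (f := fun (q : ((α × ℕ) × ℕ) × ℕ) c => (q.1.1.2, q.1.2, c, q.2))
      (hL.comp (PTime.fst.comp (PTime.fst.comp PTime.fst))) ?_
    exact PTime.pair (PTime.snd.comp (PTime.fst.comp (PTime.fst.comp PTime.fst)))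
      (PTime.pair (PTime.snd.comp (PTime.fst.comp PTime.fst))
        (PTime.pair PTime.snd (PTime.snd.comp PTime.fst)))
  · have hb : PTime (fun q : (((α × ℕ) × ℕ) × ℕ) × Entry => q.1.1.1.1) :=
      PTime.fst.comp (PTime.fst.comp (PTime.fst.comp PTime.fst))
    exact ptime_vok (hm.comp hb) (hr.comp hb) (hk.comp hb) (PTime.fst.comp PTime.snd)
      (PTime.snd.comp PTime.snd) (fun q => hpos _)

/-! ### The translation -/

theorem ptime_decides {vs : α → List Var} {ℓ : α → Lit} {v : α → Val} (h1 : PTime vs)
    (h2 : PTime ℓ) (h3 : PTime v) : PTime (fun a => decides (vs a) (ℓ a) (v a)) := by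
  refine PTime.any (p := fun a x => decide (x.1 = (ℓ a).1) && (decide ((v a).1 ≤ x.2) &&
    (decide (x.2 < (v a).2.2) && (decide (x.2 ∈ (v a).2.1) == (ℓ a).2)))) (PTime.zipIdx h1) ?_
  have hx : PTime (fun q : α × (Var × ℕ) => q.2.2) := PTime.snd.comp PTime.snd
  have hbeq : ∀ {f g : α × (Var × ℕ) → Bool}, PTime f → PTime g → PTime (fun a => f a == g a) := by
    intro f g hf hg
    exact (PTime.eq hf hg).of_eq fun a => by cases f a <;> cases g a <;> rfl
  exact PTime.and (PTime.eq (PTime.fst.comp PTime.snd) (PTime.fst.comp (h2.comp PTime.fst)))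
    (PTime.and (PTime.nat_le (PTime.fst.comp (h3.comp PTime.fst)) hx)
    (PTime.and (PTime.nat_lt hx (PTime.snd.comp (PTime.snd.comp (h3.comp PTime.fst))))
    (hbeq (PTime.mem hx (PTime.fst.comp (PTime.snd.comp (h3.comp PTime.fst))))
      (PTime.snd.comp (h2.comp PTime.fst)))))

theorem ptime_decAll {vs : α → List Var} {γ : α → List Lit} {c : α → List Entry} (h1 : PTime vs)
    (h2 : PTime γ) (h3 : PTime c) : PTime (fun a => decAll (vs a) (γ a) (c a)) := by
  refine PTime.all (p := fun a ℓ => (c a).any (fun e => decides (vs a) ℓ e.2)) h2 ?_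
  refine PTime.any (p := fun (q : α × Lit) e => decides (vs q.1) q.2 e.2) (h3.comp PTime.fst) ?_
  exact ptime_decides (h1.comp (PTime.fst.comp PTime.fst)) (PTime.snd.comp PTime.fst)
    (PTime.snd.comp PTime.snd)

theorem ptime_clash {c c' : α → List Entry} (h1 : PTime c) (h2 : PTime c') :
    PTime (fun a => clash (c a) (c' a)) := by
  refine PTime.any (p := fun a e => (c' a).any (fun e' =>
    (decide (e.1 = e'.1) && !decide (e.2 = e'.2)) ||
    (decide (e.1 + 1 = e'.1) && !decide (e.2.2.2 = e'.2.1)))) h1 ?_
  refine PTime.any (p := fun (q : α × Entry) e' =>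
    (decide (q.2.1 = e'.1) && !decide (q.2.2 = e'.2)) ||
    (decide (q.2.1 + 1 = e'.1) && !decide (q.2.2.2.2 = e'.2.1))) (h2.comp PTime.fst) ?_
  have he : PTime (fun q : (α × Entry) × Entry => q.1.2) := PTime.snd.comp PTime.fst
  have he' : PTime (fun q : (α × Entry) × Entry => q.2) := PTime.snd
  exact PTime.or
    (PTime.and (PTime.nat_eq (PTime.fst.comp he) (PTime.fst.comp he'))
      (PTime.not (PTime.eq (PTime.snd.comp he) (PTime.snd.comp he'))))
    (PTime.and (PTime.nat_eq (PTime.succ (PTime.fst.comp he)) (PTime.fst.comp he'))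
      (PTime.not (PTime.nat_eq (PTime.snd.comp (PTime.snd.comp (PTime.snd.comp he)))
        (PTime.fst.comp (PTime.snd.comp he')))))

theorem ptime_single (t : ℕ) {ℓ : α → Lit} (h : PTime ℓ) : PTime (fun a => single t (ℓ a)) := by
  induction t with
  | zero => exact PTime.cons h (PTime.const ([] : List Lit))
  | succ t ih => exact PTime.cons ih (PTime.const ([] : List (Fm t)))

theorem ptime_emb (t : ℕ) {cl : α → List Lit} (h : PTime cl) :
    PTime (fun a => emb t (cl a)) :=
  PTime.map (f := fun _ ℓ => single t ℓ) h (ptime_single t PTime.snd)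

theorem ptime_cls (d : ℕ) {L : α → ℕ} {A : α → List (List Entry)} (hL : PTime L) (hA : PTime A) :
    PTime (fun a => cls d (L a) (A a)) := by
  refine PTime.append ?_ ?_
  · refine PTime.map (f := fun a J => ((A a).filter (fun c => decide (c.map Prod.fst = J))).map
      (fun c => (nm c, true))) (ptime_tup d (PTime.range hL)) ?_
    refine PTime.map (f := fun _ c => (nm c, true)) ?_
      (PTime.pair (ptime_nm PTime.snd) (PTime.const true))
    refine PTime.filter (p := fun (q : α × List ℕ) c => decide (c.map Prod.fst = q.2))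
      (hA.comp PTime.fst) ?_
    exact PTime.eq (PTime.map (f := fun (_ : (α × List ℕ) × List Entry) e => e.1) PTime.snd
      (PTime.fst.comp PTime.snd)) (PTime.snd.comp PTime.fst)
  · refine PTime.flatMap (f := fun a c => ((A a).filter (fun c' => clash c c')).map
      (fun c' => [(nm c, false), (nm c', false)])) hA ?_
    refine PTime.map (f := fun (q : α × List Entry) c' => [(nm q.2, false), (nm c', false)]) ?_ ?_
    · exact PTime.filter (p := fun (q : α × List Entry) c' => clash q.2 c') (hA.comp PTime.fst)
        (ptime_clash (PTime.snd.comp PTime.fst) PTime.snd)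
    · exact PTime.cons (PTime.pair (ptime_nm (PTime.snd.comp PTime.fst)) (PTime.const false))
        (PTime.cons (PTime.pair (ptime_nm PTime.snd) (PTime.const false)) (PTime.const []))

theorem ptime_tr (s : ℕ) : ∀ (b : Bool) {α : Type} [SCode α] {vs : α → List Var}
    {A : α → List (List Entry)} {φ : α → Fm (s + 1)}, PTime vs → PTime A → PTime φ →
    PTime (fun a => tr (vs a) (A a) s b (φ a)) := by
  induction s with
  | zero =>
    intro b α _ vs A φ hvs hA hφ
    cases b with
    | true =>
      refine PTime.flatMap (l := fun a => (show List (List Lit) from φ a)) (f := fun a δ =>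
        ((A a).filter (fun c => decAll (vs a) (δ.map (fun ℓ => (ℓ.1, !ℓ.2))) c)).map
        (fun c => [(nm c, false)])) hφ ?_
      refine PTime.map (f := fun _ c => [(nm c, false)]) ?_
        (PTime.cons (PTime.pair (ptime_nm PTime.snd) (PTime.const false)) (PTime.const []))
      refine PTime.filter (p := fun (q : α × List Lit) c =>
        decAll (vs q.1) (q.2.map (fun ℓ => (ℓ.1, !ℓ.2))) c) (hA.comp PTime.fst) ?_
      refine ptime_decAll (hvs.comp (PTime.fst.comp PTime.fst)) ?_ PTime.snd
      exact PTime.map (f := fun (_ : (α × List Lit) × List Entry) (ℓ : Lit) => (ℓ.1, !ℓ.2))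
        (PTime.snd.comp PTime.fst)
        (PTime.pair (PTime.fst.comp PTime.snd) (PTime.not (PTime.snd.comp PTime.snd)))
    | false =>
      refine PTime.flatMap (l := fun a => (show List (List Lit) from φ a)) (f := fun a γ =>
        ((A a).filter (fun c => decAll (vs a) γ c)).map (fun c => [(nm c, true)])) hφ ?_
      refine PTime.map (f := fun _ c => [(nm c, true)]) ?_
        (PTime.cons (PTime.pair (ptime_nm PTime.snd) (PTime.const true)) (PTime.const []))
      refine PTime.filter (p := fun (q : α × List Lit) c => decAll (vs q.1) q.2 c)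
        (hA.comp PTime.fst) ?_
      exact ptime_decAll (hvs.comp (PTime.fst.comp PTime.fst)) (PTime.snd.comp PTime.fst)
        PTime.snd
  | succ s ih =>
    intro b α _ vs A φ hvs hA hφ
    cases b with
    | true =>
      exact PTime.map (l := fun a => (show List (Fm (s + 1)) from φ a))
        (f := fun a ψ => tr (vs a) (A a) s false ψ) hφ
        (ih false (hvs.comp PTime.fst) (hA.comp PTime.fst) PTime.snd)
    | false =>
      exact PTime.map (l := fun a => (show List (Fm (s + 1)) from φ a))
        (f := fun a ψ => tr (vs a) (A a) s true ψ) hφ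
        (ih true (hvs.comp PTime.fst) (hA.comp PTime.fst) PTime.snd)

theorem ptime_outF (d s : ℕ) {vs : α → List Var} {r k : α → ℕ} {φ : α → Fm (s + 2)}
    (hvs : PTime vs) (hr : PTime r) (hk : PTime k) (hφ : PTime φ) (hpos : ∀ a, 0 < r a)
    (Q : ℕ[X]) (hQ : ∀ a, ((vs a).length + 1) ^ r a ≤ Q.eval (sz a)) :
    PTime (fun a => outF d s (vs a) (r a) (k a) (φ a)) := by
  have hA : PTime (fun a => tup d (pairs (vs a).length (r a) (k a))) :=
    ptime_tup d (ptime_pairs (PTime.length hvs) hr hk hpos Q hQ)
  refine PTime.append (f := fun a => (cls d (k a / r a + 1)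
    (tup d (pairs (vs a).length (r a) (k a)))).map (emb s)) ?_
    (ptime_tr (s + 1) true hvs hA hφ)
  exact PTime.map (f := fun _ cl => emb s cl) (ptime_cls d (PTime.succ (ptime_div hk hr hpos)) hA)
    (ptime_emb s PTime.snd)

end Pool.Agent.Lib.MP_b4f117_lc
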