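import Pool.Agent.Lib.MP_b4f117_lc.Defs
import Pool.Agent.Lib.PolyTime.Sexp
import Pool.Agent.Lib.PolyTime.Typed

/-!
# The reduction from `Γ_{t,d}` to `Γ_{t,1}`

A set of `k` positions among `0, …, m - 1` is cut into `k / r + 1` chunks. A value of a chunk is
a triple `(lo, c, hi)`: the chunk occupies the interval `[lo, hi)` and contains exactly the
positions in the increasing list `c`. A cell holds the values of `d` chunks.
-/

namespace Pool.Agent.Lib.MP_b4f117_lc

open Pool.Agent.PolyTime

/-- value of a chunk: lower end, chosen positions, upper end -/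
abbrev Val := ℕ × List ℕ × ℕ

/-- a chunk index with a value -/
abbrev Entry := ℕ × Val

/-- the list is strictly increasing with entries in `[lo, hi)`, and `lo ≤ hi` -/
def chk : ℕ → List ℕ → ℕ → Bool
  | lo, [], hi => decide (lo ≤ hi)
  | lo, a :: l, hi => decide (lo ≤ a) && chk (a + 1) l hi

/-- all lists of length at most `r` with entries smaller than `m` -/
def lists (m : ℕ) : ℕ → List (List ℕ)
  | 0 => [[]]
  | r + 1 => [] :: (lists m r).flatMap (fun l => (List.range m).map (fun a => a :: l))

/-- all lists of length `d` with entries in `P` -/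
def tup {α : Type} : ℕ → List α → List (List α)
  | 0, _ => [[]]
  | d + 1, P => P.flatMap (fun p => (tup d P).map (fun c => p :: c))

/-- admissible value of chunk number `j` -/
def vok (m r k j : ℕ) (v : Val) : Bool :=
  chk v.1 v.2.1 v.2.2 && (decide (v.2.2 ≤ m) &&
    (decide (v.2.1.length = if j = k / r then k % r else r) &&
    ((!decide (j = 0) || decide (v.1 = 0)) && (!decide (j = k / r) || decide (v.2.2 = m)))))

/-- all admissible entries -/
def pairs (m r k : ℕ) : List Entry :=
  (List.range (k / r + 1)).flatMap (fun j =>
    (List.range (m + 1)).flatMap (fun lo =>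
      (List.range (m + 1)).flatMap (fun hi =>
        ((lists m r).map (fun c => (j, lo, c, hi))).filter (fun e => vok m r k e.1 e.2))))

/-- the value decides the literal as true -/
def decides (vs : List Var) (ℓ : Lit) (v : Val) : Bool :=
  vs.zipIdx.any (fun x => decide (x.1 = ℓ.1) && (decide (v.1 ≤ x.2) && (decide (x.2 < v.2.2) &&
    (decide (x.2 ∈ v.2.1) == ℓ.2))))

/-- every literal of the list is decided as true by an entry of the cell -/
def decAll (vs : List Var) (γ : List Lit) (c : List Entry) : Bool :=
  γ.all (fun ℓ => c.any (fun e => decides vs ℓ e.2))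

/-- the name of the variable for a cell with its values -/
def nm (c : List Entry) : Var := (enc c).bits

/-- two cells with values that do not fit together -/
def clash (c c' : List Entry) : Bool :=
  c.any (fun e => c'.any (fun e' =>
    (decide (e.1 = e'.1) && !decide (e.2 = e'.2)) ||
    (decide (e.1 + 1 = e'.1) && !decide (e.2.2.2 = e'.2.1))))

/-- a literal as a formula of depth `t` -/
def single : (t : ℕ) → Lit → Fm t
  | 0, ℓ => (show List Lit from [ℓ])
  | t + 1, ℓ => (show List (Fm t) from [single t ℓ])

/-- a disjunction of literals as a formula of depth `t + 1` -/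
def emb (t : ℕ) (cl : List Lit) : Fm (t + 1) := (show List (Fm t) from cl.map (single t))

/-- the translation of a formula; `A` is the list of all cells with values -/
def tr (vs : List Var) (A : List (List Entry)) : (s : ℕ) → Bool → Fm (s + 1) → Fm (s + 1)
  | 0, true, φ => (show List (List Lit) from (show List (List Lit) from φ).flatMap (fun δ =>
      (A.filter (fun c => decAll vs (δ.map (fun ℓ => (ℓ.1, !ℓ.2))) c)).map
        (fun c => [(nm c, false)])))
  | 0, false, φ => (show List (List Lit) from (show List (List Lit) from φ).flatMap (fun γ =>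
      (A.filter (fun c => decAll vs γ c)).map (fun c => [(nm c, true)])))
  | s + 1, b, φ => (show List (Fm (s + 1)) from
      (show List (Fm (s + 1)) from φ).map (tr vs A s (!b)))

/-- the constraints: every cell has a value, and the values fit together -/
def cls (d L : ℕ) (A : List (List Entry)) : List (List Lit) :=
  (tup d (List.range L)).map (fun J =>
    (A.filter (fun c => decide (c.map Prod.fst = J))).map (fun c => (nm c, true))) ++
  A.flatMap (fun c => (A.filter (fun c' => clash c c')).map
    (fun c' => [(nm c, false), (nm c', false)]))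

/-- the formula produced by the reduction -/
def outF (d s : ℕ) (vs : List Var) (r k : ℕ) (φ : Fm (s + 2)) : Fm (s + 2) :=
  let A := tup d (pairs vs.length r k)
  (show List (Fm (s + 1)) from
    (cls d (k / r + 1) A).map (emb s) ++ (show List (Fm (s + 1)) from tr vs A (s + 1) true φ))

/-! ### Basic facts -/

theorem chk_append {lo mid hi : ℕ} {l₁ l₂ : List ℕ} (h₁ : chk lo l₁ mid = true)
    (h₂ : chk mid l₂ hi = true) : chk lo (l₁ ++ l₂) hi = true := by
  induction l₁ generalizing lo with
  | nil =>
    simp only [chk, decide_eq_true_eq] at h₁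
    simp only [List.nil_append]
    cases l₂ with
    | nil =>
      simp only [chk, decide_eq_true_eq] at h₂ ⊢
      omega
    | cons a l =>
      simp only [chk, Bool.and_eq_true, decide_eq_true_eq] at h₂ ⊢
      exact ⟨by omega, h₂.2⟩
  | cons a l ih =>
    simp only [chk, Bool.and_eq_true, decide_eq_true_eq, List.cons_append] at h₁ ⊢
    exact ⟨h₁.1, ih h₁.2⟩

theorem chk_le {lo hi : ℕ} {l : List ℕ} (h : chk lo l hi = true) : lo ≤ hi := by
  induction l generalizing lo with
  | nil => simpa [chk] using h
  | cons a l ih =>
    simp only [chk, Bool.and_eq_true, decide_eq_true_eq] at h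
    have := ih h.2
    omega

theorem chk_mem {lo hi : ℕ} {l : List ℕ} (h : chk lo l hi = true) :
    ∀ a ∈ l, lo ≤ a ∧ a < hi := by
  induction l generalizing lo with
  | nil => simp
  | cons b l ih =>
    simp only [chk, Bool.and_eq_true, decide_eq_true_eq] at h
    intro a ha
    rcases List.mem_cons.1 ha with rfl | ha
    · have := chk_le h.2
      omega
    · have := ih h.2 a ha
      omega

theorem chk_nodup {lo hi : ℕ} {l : List ℕ} (h : chk lo l hi = true) : l.Nodup := by
  induction l generalizing lo with
  | nil => exact List.nodup_nil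
  | cons b l ih =>
    simp only [chk, Bool.and_eq_true, decide_eq_true_eq] at h
    refine List.nodup_cons.2 ⟨fun hb => ?_, ih h.2⟩
    have := chk_mem h.2 b hb
    omega

theorem chk_split {lo hi : ℕ} {l₁ l₂ : List ℕ} (h : chk lo (l₁ ++ l₂) hi = true) :
    ∃ mid, chk lo l₁ mid = true ∧ chk mid l₂ hi = true := by
  induction l₁ generalizing lo with
  | nil => exact ⟨lo, by simp [chk], h⟩
  | cons a l ih =>
    simp only [chk, Bool.and_eq_true, decide_eq_true_eq, List.cons_append] at h ⊢
    obtain ⟨mid, h1, h2⟩ := ih h.2
    exact ⟨mid, ⟨h.1, h1⟩, h2⟩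

theorem mem_lists {m r : ℕ} {l : List ℕ} :
    l ∈ lists m r ↔ l.length ≤ r ∧ ∀ a ∈ l, a < m := by
  induction r generalizing l with
  | zero =>
    simp only [lists, List.mem_singleton, Nat.le_zero, List.length_eq_zero_iff]
    constructor
    · rintro rfl; simp
    · rintro ⟨h, -⟩; exact h
  | succ r ih =>
    simp only [lists, List.mem_cons, List.mem_flatMap, List.mem_map, List.mem_range]
    constructor
    · rintro (rfl | ⟨l', hl', a, ha, rfl⟩)
      · simp
      · have := ih.1 hl'
        refine ⟨by simp; exact this.1, ?_⟩
        intro b hb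
        rcases List.mem_cons.1 hb with rfl | hb
        · exact ha
        · exact this.2 b hb
    · rintro ⟨h1, h2⟩
      cases l with
      | nil => exact Or.inl rfl
      | cons a l =>
        refine Or.inr ⟨l, ih.2 ⟨by simpa using h1, fun b hb => h2 b (List.mem_cons_of_mem _ hb)⟩,
          a, h2 a List.mem_cons_self, rfl⟩

theorem mem_tup {α : Type} {d : ℕ} {P : List α} {c : List α} :
    c ∈ tup d P ↔ c.length = d ∧ ∀ e ∈ c, e ∈ P := by
  induction d generalizing c with
  | zero =>
    simp only [tup, List.mem_singleton, List.length_eq_zero_iff]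
    constructor
    · rintro rfl; simp
    · rintro ⟨h, -⟩; exact h
  | succ d ih =>
    simp only [tup, List.mem_flatMap, List.mem_map]
    constructor
    · rintro ⟨p, hp, c', hc', rfl⟩
      have := ih.1 hc'
      refine ⟨by simp; exact this.1, ?_⟩
      intro b hb
      rcases List.mem_cons.1 hb with rfl | hb
      · exact hp
      · exact this.2 b hb
    · rintro ⟨h1, h2⟩
      cases c with
      | nil => simp at h1
      | cons a l =>
        exact ⟨a, h2 a List.mem_cons_self, l,
          ih.2 ⟨by simpa using h1, fun b hb => h2 b (List.mem_cons_of_mem _ hb)⟩, rfl⟩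

theorem length_tup {α : Type} (d : ℕ) (P : List α) : (tup d P).length = P.length ^ d := by
  induction d with
  | zero => simp [tup]
  | succ d ih =>
    simp only [tup, List.length_flatMap, List.length_map, ih, List.map_const', List.sum_replicate,
      smul_eq_mul]
    ring

theorem nodup_tup {α : Type} {d : ℕ} {P : List α} (hP : P.Nodup) : (tup d P).Nodup := by
  induction d with
  | zero => simp [tup]
  | succ d ih =>
    simp only [tup]
    rw [List.nodup_flatMap]
    refine ⟨fun p _ => ih.map (fun a b h => (List.cons.inj h).2), ?_⟩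
    refine hP.imp ?_
    intro a b hab
    simp only [Function.onFun]
    rw [List.disjoint_left]
    intro x hx hx'
    simp only [List.mem_map] at hx hx'
    obtain ⟨c, -, rfl⟩ := hx
    obtain ⟨c', -, h⟩ := hx'
    exact hab (List.cons.inj h).1.symm

theorem bits_inj' : ∀ (x y : Sx) (u w : List Bool), x.bits ++ u = y.bits ++ w → x = y ∧ u = w := by
  intro x
  induction x with
  | nil =>
    intro y u w h
    cases y with
    | nil => simpa [Sx.bits] using h
    | cons a b => simp [Sx.bits] at h
  | cons a b iha ihb =>
    intro y u w h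
    cases y with
    | nil => simp [Sx.bits] at h
    | cons a' b' =>
      simp only [Sx.bits, List.cons_append, List.append_assoc, List.cons.injEq, true_and] at h
      obtain ⟨h1, h2⟩ := iha _ _ _ h
      obtain ⟨h3, h4⟩ := ihb _ _ _ h2
      exact ⟨by rw [h1, h3], h4⟩

theorem nm_inj : Function.Injective nm := by
  intro c c' h
  have := bits_inj' (enc c) (enc c') [] [] (by simpa [nm] using h)
  exact SCode.inj this.1

theorem mem_pairs {m r k : ℕ} (hr : 0 < r) {e : Entry} :
    e ∈ pairs m r k ↔ e.1 < k / r + 1 ∧ vok m r k e.1 e.2 = true := by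
  obtain ⟨j, lo, c, hi⟩ := e
  simp only [pairs, List.mem_flatMap, List.mem_range, List.mem_filter, List.mem_map]
  constructor
  · rintro ⟨j', hj', lo', hlo', hi', hhi', ⟨c', hc', h⟩, hv⟩
    simp only [Prod.mk.injEq] at h
    obtain ⟨rfl, rfl, rfl, rfl⟩ := h
    exact ⟨hj', hv⟩
  · rintro ⟨hj, hv⟩
    have hv' := hv
    simp only [vok, Bool.and_eq_true, decide_eq_true_eq] at hv'
    obtain ⟨h1, h2, h3, -⟩ := hv'
    have hle := chk_le h1
    refine ⟨j, hj, lo, by omega, hi, by omega, ⟨c, ?_, rfl⟩, hv⟩
    rw [mem_lists]
    constructor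
    · rw [h3]
      split_ifs with h
      · exact (Nat.mod_lt _ hr).le
      · exact le_rfl
    · intro a ha
      have := chk_mem h1 a ha
      omega

end Pool.Agent.Lib.MP_b4f117_lc
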